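import Pool.Agent.Q211.AM.Alm

/-!
# Periodic sets of natural numbers, and the group of the permutations that almost preserve them
-/

set_option autoImplicit false
set_option linter.unusedSectionVars false

namespace Pool.Agent.Q179.RZ

open Pool.Agent.Q211.AM Pool.Agent.Q211.PA

/-- The set `a` is periodic with the period `2 ^ n`. -/
def Per (n : ℕ) (a : Set ℕ) : Prop := ∀ x, x ∈ a ↔ x % 2 ^ n ∈ a

theorem Per.mono {n m : ℕ} {a : Set ℕ} (h : Per n a) (hnm : n ≤ m) : Per m a := by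
  intro x
  have h1 := h (x % 2 ^ m)
  rw [Nat.mod_mod_of_dvd x (pow_dvd_pow 2 hnm)] at h1
  exact (h x).trans h1.symm

theorem Per.congr {n : ℕ} {a : Set ℕ} (h : Per n a) {x y : ℕ} (hxy : x % 2 ^ n = y % 2 ^ n) :
    x ∈ a ↔ y ∈ a := by
  rw [h x, h y, hxy]

theorem Per.union {n : ℕ} {a b : Set ℕ} (ha : Per n a) (hb : Per n b) : Per n (a ∪ b) := by
  intro x
  rw [Set.mem_union, Set.mem_union, ha x, hb x]

theorem Per.inter {n : ℕ} {a b : Set ℕ} (ha : Per n a) (hb : Per n b) : Per n (a ∩ b) := by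
  intro x
  rw [Set.mem_inter_iff, Set.mem_inter_iff, ha x, hb x]

theorem Per.infinite {n : ℕ} {a : Set ℕ} (ha : Per n a) (hne : a.Nonempty) : a.Infinite := by
  obtain ⟨x, hx⟩ := hne
  refine Set.infinite_of_injective_forall_mem (f := fun k : ℕ => x + k * 2 ^ n) ?_ fun k => ?_
  · intro k l hkl
    have h1 : k * 2 ^ n = l * 2 ^ n := Nat.add_left_cancel hkl
    exact Nat.eq_of_mul_eq_mul_right (by positivity) h1
  · refine (ha.congr ?_).1 hx
    rw [Nat.add_mul_mod_self_right]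

theorem Per.eq_of_ae {n : ℕ} {a b : Set ℕ} (ha : Per n a) (hb : Per n b) (h : AE a b) : a = b := by
  ext x
  by_contra hx
  have h1 : Per n {y | ¬ (y ∈ a ↔ y ∈ b)} := by
    intro y
    rw [Set.mem_ofPred_eq, Set.mem_ofPred_eq, ha y, hb y, ← ha, ← hb]
  exact h1.infinite ⟨x, hx⟩ h

/-- The nonempty periodic sets. -/
def BP : Type := {a : Set ℕ // (∃ n, Per n a) ∧ a.Nonempty}

instance : PartialOrder BP := Subtype.partialOrder _

theorem le_def {a b : BP} : a ≤ b ↔ a.1 ⊆ b.1 := Iff.rfl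

theorem per_univ (n : ℕ) : Per n Set.univ := fun x => by simp

instance : OrderTop BP where
  top := ⟨Set.univ, ⟨0, per_univ 0⟩, ⟨0, trivial⟩⟩
  le_top a := Set.subset_univ a.1

theorem top_val : (⊤ : BP).1 = Set.univ := rfl

instance : Countable BP := by
  classical
  have h : Function.Injective (fun a : BP => ((a.2.1.choose,
      (Finset.range (2 ^ a.2.1.choose)).filter fun x => x ∈ a.1) : ℕ × Finset ℕ)) := by
    intro a b hab
    obtain ⟨h1, h2⟩ := Prod.ext_iff.1 hab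
    simp only at h1 h2
    have ha := a.2.1.choose_spec
    have hb := b.2.1.choose_spec
    rw [← h1] at hb h2
    refine Subtype.ext (Set.ext fun x => ?_)
    rw [ha x, hb x]
    have h3 := Finset.ext_iff.1 h2 (x % 2 ^ a.2.1.choose)
    rw [Finset.mem_filter, Finset.mem_filter, Finset.mem_range] at h3
    have h4 : x % 2 ^ a.2.1.choose < 2 ^ a.2.1.choose := Nat.mod_lt _ (by positivity)
    tauto
  exact h.countable

/-- The residue class. -/
def cl (n r : ℕ) : BP := ⟨{x | x % 2 ^ n = r % 2 ^ n}, ⟨n, fun x => by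
  rw [Set.mem_ofPred_eq, Set.mem_ofPred_eq, Nat.mod_mod]⟩, ⟨r, rfl⟩⟩

theorem mem_cl {n r x : ℕ} : x ∈ (cl n r).1 ↔ x % 2 ^ n = r % 2 ^ n := Iff.rfl

theorem per_cl (n r : ℕ) : Per n (cl n r).1 := fun x => by
  rw [mem_cl, mem_cl, Nat.mod_mod]

theorem cl_le {n r : ℕ} {a : BP} (ha : Per n a.1) (hr : r ∈ a.1) : cl n r ≤ a := by
  intro x hx
  exact (ha.congr (mem_cl.1 hx)).2 hr

theorem cl_anti {n m r : ℕ} (h : n ≤ m) : cl m r ≤ cl n r :=
  cl_le ((per_cl n r).mono h) (mem_cl.2 rfl)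

/-- The union. -/
def jn (a b : BP) : BP := ⟨a.1 ∪ b.1, by
  obtain ⟨n, hn⟩ := a.2.1
  obtain ⟨m, hm⟩ := b.2.1
  exact ⟨max n m, (hn.mono (le_max_left _ _)).union (hm.mono (le_max_right _ _))⟩, by
  obtain ⟨x, hx⟩ := a.2.2
  exact ⟨x, Or.inl hx⟩⟩

theorem jn_val (a b : BP) : (jn a b).1 = a.1 ∪ b.1 := rfl

/-- Two nonempty periodic sets contain disjoint nonempty periodic sets. -/
theorem exists_disj (a b : BP) : ∃ a' ≤ a, ∃ b' ≤ b, a'.1 ∩ b'.1 = ∅ := by
  obtain ⟨n, hn⟩ := a.2.1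
  obtain ⟨m, hm⟩ := b.2.1
  obtain ⟨x, hx⟩ := a.2.2
  obtain ⟨y, hy, hyx⟩ := (hm.infinite b.2.2).exists_notMem_finite (Set.finite_singleton x)
  have hyx' : y ≠ x := hyx
  obtain ⟨L, h1, h2, h3⟩ : ∃ L, n ≤ L ∧ m ≤ L ∧ x % 2 ^ L ≠ y % 2 ^ L := by
    refine ⟨n + m + x + y, by omega, by omega, ?_⟩
    have h4 : n + m + x + y < 2 ^ (n + m + x + y) := Nat.lt_two_pow_self
    rw [Nat.mod_eq_of_lt (by omega), Nat.mod_eq_of_lt (by omega)]
    exact hyx'.symm
  refine ⟨cl L x, cl_le (hn.mono h1) hx, cl L y, cl_le (hm.mono h2) hy, ?_⟩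
  ext z
  rw [Set.mem_inter_iff, mem_cl, mem_cl]
  constructor
  · rintro ⟨h5, h6⟩
    exact h3 (h5.symm.trans h6)
  · exact fun h => h.elim

/-! ### The group -/

theorem ae_pre {D E : Set ℕ} (h : AE D E) (σ : Equiv.Perm ℕ) :
    AE {x | σ x ∈ D} {x | σ x ∈ E} :=
  Set.Finite.preimage (f := σ) σ.injective.injOn h

/-- The group of the permutations that almost preserve the family of the periodic sets. -/
def Gam : Subgroup (Equiv.Perm ℕ × (BP ≃o BP)) where
  carrier := {g | ∀ a : BP, AE {x | g.1⁻¹ x ∈ a.1} (g.2 a).1}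
  one_mem' := fun a => AE.refl _
  mul_mem' := by
    intro g h hg hh a
    exact (ae_pre (hh a) g.1⁻¹).trans (hg (h.2 a))
  inv_mem' := by
    intro g hg a
    have h1 := ae_pre (hg (g.2⁻¹ a)) g.1
    have h2 : g.2 (g.2⁻¹ a) = a := OrderIso.apply_symm_apply g.2 a
    rw [h2] at h1
    have h3 : {x | g.1 x ∈ {x | g.1⁻¹ x ∈ (g.2⁻¹ a).1}} = (g.2⁻¹ a).1 := by
      ext x
      rw [Set.mem_ofPred_eq, Set.mem_ofPred_eq, perm_inv_self]
    rw [h3] at h1
    exact h1.symm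

instance : MulAction Gam ℕ where
  smul g x := g.1.1 x
  one_smul _ := rfl
  mul_smul _ _ _ := rfl

theorem gam_smul (g : Gam) (x : ℕ) : g • x = g.1.1 x := rfl

theorem gam_inv_smul (g : Gam) (x : ℕ) : g⁻¹ • x = g.1.1⁻¹ x := rfl

/-- The action on the periodic sets. -/
def rho (g : Gam) (a : BP) : BP := g.1.2 a

theorem rho_mono (g : Gam) {a b : BP} (h : a ≤ b) : rho g a ≤ rho g b := g.1.2.monotone h

theorem rho_top (g : Gam) : rho g ⊤ = ⊤ := g.1.2.map_top

theorem rho_mul (g h : Gam) (a : BP) : rho (g * h) a = rho g (rho h a) := rfl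

theorem rho_one (a : BP) : rho 1 a = a := rfl

theorem ae_rho (g : Gam) (a : BP) : AE (im' g a.1) (rho g a).1 := g.2 a

theorem ae_im {D E : Set ℕ} (g : Gam) (h : AE D E) : AE (im' g D) (im' g E) :=
  ae_pre h g.1.1⁻¹

theorem ae_im_rho {D : Set ℕ} {a : BP} (g : Gam) (h : AE D a.1) : AE (im' g D) (rho g a).1 :=
  (ae_im g h).trans (ae_rho g a)

/-- The basic subgroups. -/
def St (n : ℕ) : Subgroup Gam where
  carrier := {γ | (∀ y < n, γ • y = y) ∧ ∀ y, (γ • y) % 2 ^ n = y % 2 ^ n}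
  one_mem' := ⟨fun y _ => one_smul _ y, fun y => by rw [one_smul]⟩
  mul_mem' := by
    intro a b ha hb
    refine ⟨fun y hy => ?_, fun y => ?_⟩
    · rw [mul_smul, hb.1 y hy, ha.1 y hy]
    · rw [mul_smul, ha.2, hb.2]
  inv_mem' := by
    intro a ha
    refine ⟨fun y hy => ?_, fun y => ?_⟩
    · rw [inv_smul_eq_iff, ha.1 y hy]
    · rw [← ha.2 (a⁻¹ • y), smul_inv_smul]

theorem mem_St {n : ℕ} {γ : Gam} :
    γ ∈ St n ↔ (∀ y < n, γ • y = y) ∧ ∀ y, (γ • y) % 2 ^ n = y % 2 ^ n := Iff.rfl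

theorem St_mono {n m : ℕ} (h : n ≤ m) : St m ≤ St n := by
  intro γ hγ
  refine ⟨fun y hy => hγ.1 y (by omega), fun y => ?_⟩
  have h1 := hγ.2 y
  rw [← Nat.mod_mod_of_dvd (γ • y) (pow_dvd_pow 2 h), h1, Nat.mod_mod_of_dvd y (pow_dvd_pow 2 h)]

theorem exists_bound {P : ℕ → ℕ → Prop} (hP : ∀ r m m', m ≤ m' → P r m → P r m') :
    ∀ N : ℕ, (∀ r < N, ∃ m, P r m) → ∃ m, ∀ r < N, P r m := by
  intro N
  induction N with
  | zero => exact fun _ => ⟨0, fun r hr => by omega⟩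
  | succ N ih =>
    intro h
    obtain ⟨m, hm⟩ := ih fun r hr => h r (by omega)
    obtain ⟨m', hm'⟩ := h N (by omega)
    refine ⟨max m m', fun r hr => ?_⟩
    rcases Nat.lt_succ_iff_lt_or_eq.1 hr with h1 | rfl
    · exact hP r m _ (le_max_left _ _) (hm r h1)
    · exact hP r m' _ (le_max_right _ _) hm'

theorem finite_bound {s : Set ℕ} (hs : s.Finite) : ∃ m, ∀ x ∈ s, x < m := by
  obtain ⟨m, hm⟩ := hs.bddAbove
  exact ⟨m + 1, fun x hx => Nat.lt_succ_of_le (hm hx)⟩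

/-- The normal filter. -/
def NZ : NFil Gam where
  F := Set.range St
  ne := ⟨_, 0, rfl⟩
  conj := by
    rintro _ ⟨n, rfl⟩ g
    obtain ⟨m1, h1⟩ := exists_bound (P := fun y m => g • y < m)
      (fun r m m' h h' => lt_of_lt_of_le h' h) n (fun r _ => ⟨g • r + 1, Nat.lt_succ_self _⟩)
    obtain ⟨m2, h2⟩ := exists_bound (P := fun r m => Per m (rho g (cl n r)).1)
      (fun r m m' h h' => h'.mono h) (2 ^ n) (fun r _ => (rho g (cl n r)).2.1)
    obtain ⟨m3, h3⟩ := exists_bound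
      (P := fun r m => ∀ x, ¬ (x ∈ im' g (cl n r).1 ↔ x ∈ (rho g (cl n r)).1) → x < m)
      (fun r m m' h h' x hx => lt_of_lt_of_le (h' x hx) h) (2 ^ n)
      (fun r _ => finite_bound (ae_rho g (cl n r)))
    refine ⟨_, ⟨m1 + m2 + m3, rfl⟩, fun k hk => ⟨fun y hy => ?_, fun y => ?_⟩⟩
    · have h4 := hk.1 (g • y) (lt_of_lt_of_le (h1 y hy) (by omega))
      rw [mul_smul, mul_smul, h4, inv_smul_smul]
    · rw [mul_smul, mul_smul]
      have h0 : y = g⁻¹ • g • y := by rw [inv_smul_smul]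
      conv_rhs => rw [h0]
      generalize g • y = z
      rcases lt_or_ge z (m1 + m2 + m3) with hz | hz
      · rw [hk.1 z hz]
      · have hkz : m1 + m2 + m3 ≤ k • z := by
          by_contra h4
          have h5 := hk.1 (k • z) (by omega)
          have h6 : k • z = z := smul_left_cancel k h5
          omega
        have h4 : ∀ w, m1 + m2 + m3 ≤ w → ∀ r < 2 ^ n,
            ((g⁻¹ • w) % 2 ^ n = r ↔ w ∈ (rho g (cl n r)).1) := by
          intro w hw r hr
          have h5 : (w ∈ im' g (cl n r).1 ↔ w ∈ (rho g (cl n r)).1) := by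
            by_contra h6
            have := h3 r hr w h6
            omega
          rw [← h5, mem_im', mem_cl, Nat.mod_eq_of_lt hr]
        have hr : (g⁻¹ • z) % 2 ^ n < 2 ^ n := Nat.mod_lt _ (by positivity)
        rw [h4 (k • z) hkz _ hr]
        have h7 : Per (m1 + m2 + m3) (rho g (cl n ((g⁻¹ • z) % 2 ^ n))).1 :=
          (h2 _ hr).mono (by omega)
        rw [h7.congr (hk.2 z)]
        exact (h4 z hz _ hr).1 rfl
  dir := by
    rintro _ ⟨n, rfl⟩ _ ⟨m, rfl⟩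
    exact ⟨_, ⟨max n m, rfl⟩, St_mono (le_max_left _ _), St_mono (le_max_right _ _)⟩

theorem NZ_Pt : NZ.Pt ℕ := fun x =>
  ⟨_, ⟨x + 1, rfl⟩, fun _ hg => hg.1 x (Nat.lt_succ_self x)⟩

/-- Exchanging two points. -/
theorem exists_tr {n x y : ℕ} (hx : n ≤ x) (hy : n ≤ y) (h : x % 2 ^ n = y % 2 ^ n) :
    ∃ γ ∈ St n, γ • x = y ∧ ∀ a, rho γ a = a := by
  refine ⟨⟨(Equiv.swap x y, 1), fun a => ?_⟩, ⟨fun z hz => ?_, fun z => ?_⟩, ?_, fun a => rfl⟩
  · refine Set.Finite.subset (Set.toFinite ({x, y} : Set ℕ)) fun z hz => ?_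
    by_contra h1
    rw [Set.mem_insert_iff, Set.mem_singleton_iff, not_or] at h1
    refine hz ?_
    change (Equiv.swap x y)⁻¹ z ∈ a.1 ↔ z ∈ a.1
    rw [Equiv.swap_inv, Equiv.swap_apply_of_ne_of_ne h1.1 h1.2]
  · exact Equiv.swap_apply_of_ne_of_ne (by omega) (by omega)
  · change (Equiv.swap x y z) % 2 ^ n = _
    by_cases h1 : z = x
    · rw [h1, Equiv.swap_apply_left, h]
    · by_cases h2 : z = y
      · rw [h2, Equiv.swap_apply_right, h]
      · rw [Equiv.swap_apply_of_ne_of_ne h1 h2]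
  · exact Equiv.swap_apply_left x y

/-! ### Exchanging residue classes -/

/-- The function that exchanges the residues `r` and `s` modulo `2 ^ L`, from `K * 2 ^ L` on. -/
def rsf (L r s K x : ℕ) : ℕ :=
  if K ≤ x / 2 ^ L then x / 2 ^ L * 2 ^ L + Equiv.swap r s (x % 2 ^ L) else x

theorem swap_lt {L r s t : ℕ} (hr : r < 2 ^ L) (hs : s < 2 ^ L) (ht : t < 2 ^ L) :
    Equiv.swap r s t < 2 ^ L := by
  by_cases h1 : t = r
  · rw [h1, Equiv.swap_apply_left]
    exact hs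
  · by_cases h2 : t = s
    · rw [h2, Equiv.swap_apply_right]
      exact hr
    · rw [Equiv.swap_apply_of_ne_of_ne h1 h2]
      exact ht

section

variable {L r s : ℕ} (hr : r < 2 ^ L) (hs : s < 2 ^ L)

include hr hs

theorem rsf_div (K x : ℕ) : rsf L r s K x / 2 ^ L = x / 2 ^ L := by
  unfold rsf
  split_ifs
  · have h1 := swap_lt hr hs (Nat.mod_lt x (show 0 < 2 ^ L by positivity))
    rw [Nat.add_comm, Nat.add_mul_div_right _ _ (by positivity), Nat.div_eq_of_lt h1, Nat.zero_add]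
  · rfl

theorem rsf_mod {K x : ℕ} (h : K ≤ x / 2 ^ L) : rsf L r s K x % 2 ^ L =
    Equiv.swap r s (x % 2 ^ L) := by
  unfold rsf
  rw [if_pos h, Nat.mul_add_mod_self_right]
  exact Nat.mod_eq_of_lt (swap_lt hr hs (Nat.mod_lt x (show 0 < 2 ^ L by positivity)))

theorem rsf_invol (K : ℕ) : Function.Involutive (rsf L r s K) := by
  intro x
  by_cases h : K ≤ x / 2 ^ L
  · have h1 := rsf_div hr hs K x
    have h2 := rsf_mod hr hs h
    have h3 : K ≤ rsf L r s K x / 2 ^ L := by rw [h1]; exact h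
    have h4 : rsf L r s K (rsf L r s K x) = rsf L r s K x / 2 ^ L * 2 ^ L +
        Equiv.swap r s (rsf L r s K x % 2 ^ L) := if_pos h3
    rw [h4, h1, h2, Equiv.swap_apply_self, Nat.div_add_mod']
  · have h1 : rsf L r s K x = x := if_neg h
    rw [h1, h1]

theorem per_rsf {m : ℕ} (hm : L ≤ m) {a : Set ℕ} (ha : Per m a) :
    Per m {x | rsf L r s 0 x ∈ a} := by
  intro x
  rw [Set.mem_ofPred_eq, Set.mem_ofPred_eq]
  refine ha.congr ?_
  have h1 : ∀ x, rsf L r s 0 x = x / 2 ^ L * 2 ^ L + Equiv.swap r s (x % 2 ^ L) :=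
    fun x => if_pos (Nat.zero_le _)
  have h2 : x % 2 ^ m % 2 ^ L = x % 2 ^ L := Nat.mod_mod_of_dvd x (pow_dvd_pow 2 hm)
  rw [h1, h1, h2]
  have h3 : x / 2 ^ L * 2 ^ L ≡ x % 2 ^ m / 2 ^ L * 2 ^ L [MOD 2 ^ m] := by
    refine Nat.ModEq.add_right_cancel' (x % 2 ^ L) ?_
    have h4 := Nat.div_add_mod' (x % 2 ^ m) (2 ^ L)
    rw [h2] at h4
    rw [h4, Nat.div_add_mod']
    exact (Nat.mod_modEq _ _).symm
  exact h3.add_right _

/-- The action of the exchange on the periodic sets. -/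
def rsB (a : BP) : BP := ⟨{x | rsf L r s 0 x ∈ a.1}, by
  obtain ⟨n, hn⟩ := a.2.1
  exact ⟨max n L, per_rsf hr hs (le_max_right _ _) (hn.mono (le_max_left _ _))⟩, by
  obtain ⟨x, hx⟩ := a.2.2
  refine ⟨rsf L r s 0 x, ?_⟩
  rw [Set.mem_ofPred_eq, rsf_invol hr hs]
  exact hx⟩

theorem rsB_invol (a : BP) : rsB hr hs (rsB hr hs a) = a := by
  refine Subtype.ext (Set.ext fun x => ?_)
  change rsf L r s 0 (rsf L r s 0 x) ∈ a.1 ↔ _
  rw [rsf_invol hr hs]

theorem rsB_mono {a b : BP} (h : a ≤ b) : rsB hr hs a ≤ rsB hr hs b := fun _ hx => h hx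

/-- The action of the exchange on the periodic sets, as an automorphism. -/
def rsO : BP ≃o BP where
  toFun := rsB hr hs
  invFun := rsB hr hs
  left_inv := rsB_invol hr hs
  right_inv := rsB_invol hr hs
  map_rel_iff' := by
    intro a b
    constructor
    · intro h
      have h1 := rsB_mono hr hs h
      change rsB hr hs (rsB hr hs a) ≤ rsB hr hs (rsB hr hs b) at h1
      rwa [rsB_invol, rsB_invol] at h1
    · exact fun h => rsB_mono hr hs h

end

/-- Exchanging two residue classes. -/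
theorem exists_rs {n L r s : ℕ} (hnL : n ≤ L) (hr : r < 2 ^ L) (hs : s < 2 ^ L)
    (hrs : r % 2 ^ n = s % 2 ^ n) :
    ∃ γ ∈ St n, rho γ (cl L r) = cl L s ∧ ∀ t < 2 ^ L, t ≠ r → t ≠ s →
      rho γ (cl L t) = cl L t := by
  have h0 : ∀ x, rsf L r s 0 x % 2 ^ L = Equiv.swap r s (x % 2 ^ L) :=
    fun x => rsf_mod hr hs (Nat.zero_le _)
  refine ⟨⟨((rsf_invol hr hs n).toPerm, rsO hr hs), fun a => ?_⟩, ⟨fun z hz => ?_, fun z => ?_⟩,
    ?_, fun t ht h1 h2 => ?_⟩
  · refine Set.Finite.subset (Set.finite_lt_nat (n * 2 ^ L)) fun z hz => ?_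
    by_contra h1
    refine hz ?_
    have h2 : n ≤ z / 2 ^ L := (Nat.le_div_iff_mul_le (by positivity)).2 (not_lt.1 h1)
    have h3 : rsf L r s n z = rsf L r s 0 z := by
      unfold rsf
      rw [if_pos h2, if_pos (Nat.zero_le _)]
    change (rsf L r s n z ∈ a.1) ↔ rsf L r s 0 z ∈ a.1
    rw [h3]
  · change rsf L r s n z = z
    unfold rsf
    have h1 : z / 2 ^ L ≤ z := Nat.div_le_self _ _
    rw [if_neg (by omega)]
  · change rsf L r s n z % 2 ^ n = z % 2 ^ n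
    by_cases h1 : n ≤ z / 2 ^ L
    · rw [← Nat.mod_mod_of_dvd (rsf L r s n z) (pow_dvd_pow 2 hnL), rsf_mod hr hs h1,
        ← Nat.mod_mod_of_dvd z (pow_dvd_pow 2 hnL)]
      generalize z % 2 ^ L = t
      by_cases h2 : t = r
      · rw [h2, Equiv.swap_apply_left, hrs]
      · by_cases h3 : t = s
        · rw [h3, Equiv.swap_apply_right, hrs]
        · rw [Equiv.swap_apply_of_ne_of_ne h2 h3]
    · unfold rsf
      rw [if_neg h1]
  · refine Subtype.ext (Set.ext fun x => ?_)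
    change rsf L r s 0 x % 2 ^ L = r % 2 ^ L ↔ x % 2 ^ L = s % 2 ^ L
    rw [h0, Nat.mod_eq_of_lt hr, Nat.mod_eq_of_lt hs]
    constructor
    · intro h
      have h1 := congrArg (Equiv.swap r s) h
      rwa [Equiv.swap_apply_self, Equiv.swap_apply_left] at h1
    · intro h
      rw [h, Equiv.swap_apply_right]
  · refine Subtype.ext (Set.ext fun x => ?_)
    change rsf L r s 0 x % 2 ^ L = t % 2 ^ L ↔ x % 2 ^ L = t % 2 ^ L
    rw [h0, Nat.mod_eq_of_lt ht]
    constructor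
    · intro h
      have h3 := congrArg (Equiv.swap r s) h
      rwa [Equiv.swap_apply_self, Equiv.swap_apply_of_ne_of_ne h1 h2] at h3
    · intro h
      rw [h, Equiv.swap_apply_of_ne_of_ne h1 h2]

end Pool.Agent.Q179.RZ
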