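import Pool.Agent.Q179.RZ.Nam
import Pool.Agent.Q211.TP.Ppp

/-!
# The combinatorial core
-/

set_option autoImplicit false
set_option linter.unusedSectionVars false
set_option linter.unusedVariables false
set_option linter.unreachableTactic false
set_option linter.unusedTactic false

namespace Pool.Agent.Q179.RZ

open Pool.Agent.W868 Pool.Agent.W868.PName Pool.Agent.Q211.SY Pool.Agent.Q211.FS
open Pool.Agent.Q211.PA Pool.Agent.Q211.AM Pool.Agent.Q211.TP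
open ZFSet (pair)

theorem ud_pair3 : UD fun _ (v : Fin 3 → ZFSet.{0}) => pair (v 2) (v 1) ∈ v 0 := by
  (repeat' first
    | assumption
    | exact UF.proj _
    | exact UF.om
    | exact UD.prop _
    | apply UD.not | apply UD.and | apply UD.or | apply UD.imp | apply UD.iff
    | apply UD.bex | apply UD.ball | apply UD.ex | apply UD.all
    | apply UD.eq | apply UD.mem | apply UF.pair)

/-- Avoiding few residues. -/
theorem exists_avoid (n c x : ℕ) {T : Finset ℕ} (hT : T.card ≤ c) :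
    ∃ r, r < 2 ^ (n + c) ∧ r % 2 ^ n = x % 2 ^ n ∧ r ∉ T := by
  classical
  have hinj : Function.Injective fun i : ℕ => x % 2 ^ n + i * 2 ^ n := by
    intro i j hij
    exact Nat.eq_of_mul_eq_mul_right (show 0 < 2 ^ n by positivity) (Nat.add_left_cancel hij)
  have h1 : T.card < ((Finset.range (2 ^ c)).image fun i => x % 2 ^ n + i * 2 ^ n).card := by
    rw [Finset.card_image_of_injective _ hinj, Finset.card_range]
    exact lt_of_le_of_lt hT Nat.lt_two_pow_self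
  obtain ⟨r, hr, hrT⟩ := Finset.exists_mem_notMem_of_card_lt_card h1
  obtain ⟨i, hi, rfl⟩ := Finset.mem_image.1 hr
  refine ⟨_, ?_, ?_, hrT⟩
  · have h2 : x % 2 ^ n < 2 ^ n := Nat.mod_lt _ (by positivity)
    have h3 : i + 1 ≤ 2 ^ c := Finset.mem_range.1 hi
    calc x % 2 ^ n + i * 2 ^ n < 2 ^ n + i * 2 ^ n := by omega
      _ = (i + 1) * 2 ^ n := by ring
      _ ≤ 2 ^ c * 2 ^ n := Nat.mul_le_mul_right _ h3
      _ = 2 ^ (n + c) := by rw [pow_add, mul_comm]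
  · rw [Nat.add_mul_mod_self_right, Nat.mod_mod]

theorem cl_mod (n r : ℕ) : cl n (r % 2 ^ n) = cl n r := by
  refine Subtype.ext (Set.ext fun x => ?_)
  rw [mem_cl, mem_cl, Nat.mod_mod]

theorem Per.max_of_finset (F : Finset ℕ) (C : ℕ → BP) : ∃ n, ∀ j ∈ F, Per n (C j).1 := by
  classical
  induction F using Finset.induction_on with
  | empty => exact ⟨0, fun j hj => absurd hj (Finset.notMem_empty _)⟩
  | insert a s ha ih =>
    obtain ⟨n, hn⟩ := ih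
    obtain ⟨m, hm⟩ := (C a).2.1
    refine ⟨max n m, fun j hj => ?_⟩
    rcases Finset.mem_insert.1 hj with rfl | hj
    · exact hm.mono (le_max_right _ _)
    · exact (hn j hj).mono (le_max_left _ _)

namespace PZM

variable {M : Set ZFSet.{0}} {at' : ℕ → ZFSet.{0}} {st : Set ℕ → ZFSet.{0}}
  {bs : BP → Set ℕ} {bz : BP → ZFSet.{0}} (h : PZM M at' st bs bz)

include h

theorem mem_st {D : Set ℕ} (hD : D ∈ DZ) {x : ℕ} : at' x ∈ st D ↔ x ∈ D := by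
  rw [h.mst D hD]
  constructor
  · rintro ⟨y, hy, h1⟩
    rw [h.inj h1]
    exact hy
  · intro hx
    exact ⟨x, hx, rfl⟩

theorem st_ext {D : Set ℕ} (hD : D ∈ DZ) {S : ZFSet.{0}} (hS : ∀ z ∈ S, ∃ x, z = at' x)
    (h1 : ∀ x, at' x ∈ S ↔ x ∈ D) : S = st D := by
  ext z
  rw [h.mst D hD]
  constructor
  · intro hz
    obtain ⟨x, rfl⟩ := hS z hz
    exact ⟨x, (h1 x).1 hz, rfl⟩
  · rintro ⟨x, hx, rfl⟩
    exact (h1 x).2 hx

theorem mem_bz {a : BP} {j : ℕ} : nat j ∈ bz a ↔ j ∈ bs a := by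
  rw [h.mbz]
  constructor
  · rintro ⟨k, hk, h1⟩
    rwa [nat_injective h1]
  · intro hj
    exact ⟨j, hj, rfl⟩

/-- The sets of points in the model. -/
theorem sub_DZ {S : ZFSet.{0}} (hSM : S ∈ M) (hS : ∀ z ∈ S, ∃ x, z = at' x) :
    {x | at' x ∈ S} ∈ DZ ∧ S = st {x | at' x ∈ S} := by
  obtain ⟨n, hn⟩ := h.inv S hSM
  have h1 : ∀ x y, n ≤ x → n ≤ y → x % 2 ^ n = y % 2 ^ n → at' x ∈ S → at' y ∈ S := by
    intro x y hx hy hxy hxS
    obtain ⟨F, C, hC, h2⟩ := (hn (nat 0) (.nat 0) _ ud_mem3).1 x hxS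
    obtain ⟨γ, hγ, h3, h4⟩ := exists_tr hx hy hxy
    have h5 : at' (γ • x) ∈ S := h2 C (fun j hj => ⟨le_rfl, hC j hj⟩) γ hγ fun j _ => h4 _
    rwa [h3] at h5
  have hD : {x | at' x ∈ S} ∈ DZ := by
    refine ⟨{x | at' (x % 2 ^ n + n * 2 ^ n) ∈ S}, ⟨n, fun x => ?_⟩, ?_⟩
    · rw [Set.mem_ofPred_eq, Set.mem_ofPred_eq, Nat.mod_mod]
    · refine Set.Finite.subset (Set.finite_lt_nat n) fun x hx => ?_
      by_contra h2
      have h3 : n ≤ x := not_lt.1 h2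
      have h4 : n ≤ x % 2 ^ n + n * 2 ^ n := by
        have : n * 1 ≤ n * 2 ^ n := Nat.mul_le_mul_left _ Nat.one_le_two_pow
        omega
      have h5 : x % 2 ^ n = (x % 2 ^ n + n * 2 ^ n) % 2 ^ n := by
        rw [Nat.add_mul_mod_self_right, Nat.mod_mod]
      exact hx ⟨h1 _ _ h3 h4 h5, h1 _ _ h4 h3 h5.symm⟩
  exact ⟨hD, h.st_ext hD hS fun x => Iff.rfl⟩

theorem cl_le_of {L t j : ℕ} {a : BP} (hL : Per L a.1) (ht : j ∈ bs (cl L t)) (ha : j ∈ bs a) :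
    cl L t ≤ a := by
  obtain ⟨d, -, h1, h2⟩ := h.comp ht ha
  obtain ⟨x, hx⟩ := d.2.2
  have h3 : x % 2 ^ L = t % 2 ^ L := mem_cl.1 (h1 hx)
  have h4 : t ∈ a.1 := (hL.congr h3).1 (h2 hx)
  exact cl_le hL h4

theorem cls_lt (j n : ℕ) : ∃ t < 2 ^ n, j ∈ bs (cl n t) := by
  obtain ⟨t, ht⟩ := h.cls j n
  exact ⟨t % 2 ^ n, Nat.mod_lt _ (by positivity), by rwa [cl_mod]⟩

/-- The cones at the level `L`. -/
theorem esc_cones {n : ℕ} {P : Gam → Prop} (hP : Esc bs n P) : ∃ n1 c : ℕ, n ≤ n1 ∧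
    ∃ F : Finset ℕ, F.card = c ∧ ∀ m, n1 ≤ m → ∃ t : ℕ → ℕ, (∀ j, t j < 2 ^ (m + c) ∧
      j ∈ bs (cl (m + c) (t j))) ∧ ∀ r < 2 ^ (m + c), ∀ s < 2 ^ (m + c), r % 2 ^ n = s % 2 ^ n →
      (∀ j ∈ F, t j ≠ r) → (∀ j ∈ F, t j ≠ s) →
      ∃ γ, P γ ∧ rho γ (cl (m + c) r) = cl (m + c) s := by
  obtain ⟨F, C, hC, h1⟩ := hP
  obtain ⟨n1, hn1⟩ := Per.max_of_finset F C
  refine ⟨max n n1, F.card, le_max_left _ _, F, rfl, fun m hm => ?_⟩
  have h2 : ∀ j, ∃ t < 2 ^ (m + F.card), j ∈ bs (cl (m + F.card) t) := fun j => h.cls_lt j _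
  choose t ht htb using h2
  refine ⟨t, fun j => ⟨ht j, htb j⟩, fun r hr s hs hrs htr hts => ?_⟩
  have h3 : n ≤ m := (le_max_left _ _).trans hm
  have h4 : n1 ≤ m := (le_max_right _ _).trans hm
  obtain ⟨γ, hγ, h5, h6⟩ := exists_rs (L := m + F.card) (by omega) hr hs hrs
  refine ⟨γ, h1 (fun j => cl (m + F.card) (t j)) (fun j hj => ⟨?_, htb j⟩) γ hγ
    (fun j hj => h6 _ (ht j) (htr j hj) (hts j hj)), h5⟩
  exact h.cl_le_of ((hn1 j hj).mono (by omega)) (htb j) (hC j hj)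

/-- The core of compactness. -/
theorem compact_core {J : ZFSet.{0}} (hJ : J ∈ M) (hdown : ∀ a b, a ≤ b → bz b ∈ J → bz a ∈ J)
    (hjn : ∀ a b, bz a ∈ J → bz b ∈ J → bz (jn a b) ∈ J)
    (hcov : ∀ j, ∃ a, j ∈ bs a ∧ bz a ∈ J) : bz ⊤ ∈ J := by
  classical
  obtain ⟨n, hn⟩ := h.inv J hJ
  have hlej : ∀ a b : BP, a ≤ jn a b := fun a b => Set.subset_union_left
  have hlej' : ∀ a b : BP, b ≤ jn a b := fun a b => Set.subset_union_right
  -- step 1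
  have s1 : ∀ N : ℕ, ∃ a, bz a ∈ J ∧ ∀ r < N, r < 2 ^ n → ∃ x ∈ a.1, x % 2 ^ n = r := by
    intro N
    induction N with
    | zero =>
      obtain ⟨a, -, ha⟩ := hcov 0
      exact ⟨a, ha, fun r hr => by omega⟩
    | succ N ih =>
      obtain ⟨a, ha, h1⟩ := ih
      obtain ⟨j, hj⟩ := h.ne (cl n N)
      obtain ⟨b, hjb, hb⟩ := hcov j
      refine ⟨jn a b, hjn _ _ ha hb, fun r hr hr2 => ?_⟩
      rcases Nat.lt_succ_iff_lt_or_eq.1 hr with h2 | rfl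
      · obtain ⟨x, hx, h3⟩ := h1 r h2 hr2
        exact ⟨x, Or.inl hx, h3⟩
      · obtain ⟨d, -, h2, h3⟩ := h.comp hj hjb
        obtain ⟨x, hx⟩ := d.2.2
        refine ⟨x, Or.inr (h3 hx), ?_⟩
        have h4 := mem_cl.1 (h2 hx)
        rwa [Nat.mod_eq_of_lt hr2] at h4
  obtain ⟨a, ha, h1⟩ := s1 (2 ^ n)
  have h1' : ∀ s, ∃ x ∈ a.1, x % 2 ^ n = s % 2 ^ n := fun s =>
    h1 _ (Nat.mod_lt _ (by positivity)) (Nat.mod_lt _ (by positivity))
  obtain ⟨n1, c, hn1, F, hFc, hesc⟩ := h.esc_cones (((hn (nat 0) (.nat 0) _ ud_mem3).2.2) a ha)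
  -- step 2
  obtain ⟨a', ha', h2⟩ : ∃ a', bz a' ∈ J ∧ ∀ j ∈ F, j ∈ bs a' := by
    clear hFc hesc
    induction F using Finset.induction_on with
    | empty => exact ⟨a, ha, fun j hj => absurd hj (Finset.notMem_empty _)⟩
    | insert k s hk ih =>
      obtain ⟨b, hb, h3⟩ := ih
      obtain ⟨d, hkd, hd⟩ := hcov k
      refine ⟨jn b d, hjn _ _ hb hd, fun j hj => ?_⟩
      rcases Finset.mem_insert.1 hj with rfl | hj
      · exact h.mono (hlej' _ _) hkd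
      · exact h.mono (hlej _ _) (h3 j hj)
  -- the level
  obtain ⟨p1, hp1⟩ := a.2.1
  obtain ⟨p2, hp2⟩ := a'.2.1
  obtain ⟨m, hm⟩ : ∃ m, m = n1 + p1 + p2 := ⟨_, rfl⟩
  obtain ⟨t, ht, h3⟩ := hesc m (by omega)
  have hTc : (F.image t).card ≤ c := by
    rw [← hFc]
    exact Finset.card_image_le
  have s5 : ∀ s < 2 ^ (m + c), bz (cl (m + c) s) ∈ J := by
    intro s hs
    by_cases hsT : ∃ j ∈ F, t j = s
    · obtain ⟨j, hj, rfl⟩ := hsT
      refine hdown _ _ ?_ ha'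
      exact h.cl_le_of (hp2.mono (by omega)) (ht j).2 (h2 j hj)
    · push Not at hsT
      obtain ⟨x, hx, hxs⟩ := h1' s
      obtain ⟨r, hr, hrx, hrT⟩ := exists_avoid m c x hTc
      have hr' : ∀ j ∈ F, t j ≠ r := by
        intro j hj h4
        exact hrT (Finset.mem_image.2 ⟨j, hj, h4⟩)
      have hra : r ∈ a.1 := ((hp1.mono (show p1 ≤ m by omega)).congr hrx).2 hx
      have hrs : r % 2 ^ n = s % 2 ^ n := by
        rw [← hxs, ← Nat.mod_mod_of_dvd r (pow_dvd_pow 2 (show n ≤ m by omega)), hrx,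
          Nat.mod_mod_of_dvd x (pow_dvd_pow 2 (show n ≤ m by omega))]
      obtain ⟨γ, hγ, h4⟩ := h3 r hr s hs hrs hr' hsT
      refine hdown _ _ ?_ hγ
      rw [← h4]
      exact rho_mono _ (cl_le (hp1.mono (by omega)) hra)
  have s6 : ∀ N : ℕ, N ≤ 2 ^ (m + c) → ∃ b, bz b ∈ J ∧ ∀ s < N, cl (m + c) s ≤ b := by
    intro N
    induction N with
    | zero => exact fun _ => ⟨a, ha, fun s hs => by omega⟩
    | succ N ih =>
      intro hN
      obtain ⟨b, hb, h4⟩ := ih (by omega)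
      refine ⟨jn b (cl (m + c) N), hjn _ _ hb (s5 N (by omega)), fun s hs => ?_⟩
      rcases Nat.lt_succ_iff_lt_or_eq.1 hs with h5 | rfl
      · exact (h4 s h5).trans (hlej _ _)
      · exact hlej' _ _
  obtain ⟨b, hb, h4⟩ := s6 _ le_rfl
  refine hdown _ _ ?_ hb
  intro x _
  exact h4 (x % 2 ^ (m + c)) (Nat.mod_lt _ (by positivity)) (by rw [mem_cl, Nat.mod_mod])

/-- There is no sequence of pairwise almost disjoint infinite sets of points, up to finite sets. -/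
theorem no_seq {f : ZFSet.{0}} (hf : f ∈ M) {R : ℕ → BP}
    (h1 : ∀ k, ∃ D ∈ DZ, pair (nat k) (st D) ∈ f)
    (h2 : ∀ k, ∀ D ∈ DZ, pair (nat k) (st D) ∈ f → AE D (R k).1)
    (h3 : ∀ k l, k ≠ l → (R k).1 ∩ (R l).1 = ∅) : False := by
  classical
  obtain ⟨n, hn⟩ := h.inv f hf
  have key : ∀ k, ∀ x ∈ (R k).1, ∀ y, x % 2 ^ n = y % 2 ^ n → y ∈ (R k).1 := by
    intro k x hx y hxy
    by_contra hy
    obtain ⟨D, hD, hDf⟩ := h1 k
    obtain ⟨n1, c, hn1, F, hFc, hesc⟩ :=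
      h.esc_cones (((hn (nat k) (.nat k) _ ud_pair3).2.1) D hD hDf)
    obtain ⟨p1, hp1⟩ := (R k).2.1
    obtain ⟨m, hm⟩ : ∃ m, m = n1 + p1 := ⟨_, rfl⟩
    obtain ⟨t, ht, h4⟩ := hesc m (by omega)
    have hTc : (F.image t).card ≤ c := by
      rw [← hFc]
      exact Finset.card_image_le
    obtain ⟨r, hr, hrx, hrT⟩ := exists_avoid m c x hTc
    obtain ⟨s, hs, hsy, hsT⟩ := exists_avoid m c y hTc
    have hR : Per m (R k).1 := hp1.mono (by omega)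
    have hrR : r ∈ (R k).1 := (hR.congr hrx).2 hx
    have hsR : s ∉ (R k).1 := fun h5 => hy ((hR.congr hsy).1 h5)
    have hrs : r % 2 ^ n = s % 2 ^ n := by
      have h5 : n ≤ m := by omega
      rw [← Nat.mod_mod_of_dvd r (pow_dvd_pow 2 h5), hrx, Nat.mod_mod_of_dvd x (pow_dvd_pow 2 h5),
        ← Nat.mod_mod_of_dvd s (pow_dvd_pow 2 h5), hsy, Nat.mod_mod_of_dvd y (pow_dvd_pow 2 h5),
        hxy]
    obtain ⟨γ, hγ, h5⟩ := h4 r hr s hs hrs
      (fun j hj h6 => hrT (Finset.mem_image.2 ⟨j, hj, h6⟩))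
      (fun j hj h6 => hsT (Finset.mem_image.2 ⟨j, hj, h6⟩))
    have h6 : AE (im' γ D) (R k).1 := h2 k _ (DZ_im hD γ) hγ
    have h7 : AE (im' γ D) (rho γ (R k)).1 := ae_im_rho γ (h2 k D hD hDf)
    obtain ⟨q, hq⟩ := (rho γ (R k)).2.1
    have h8 : (rho γ (R k)).1 = (R k).1 :=
      (hq.mono (le_max_left q m)).eq_of_ae (hR.mono (le_max_right q m)) (h7.symm.trans h6)
    have h9 : cl (m + c) r ≤ R k := cl_le (hR.mono (by omega)) hrR
    have h10 := rho_mono γ h9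
    rw [h5] at h10
    have h11 : s ∈ (rho γ (R k)).1 := h10 (mem_cl.2 rfl)
    rw [h8] at h11
    exact hsR h11
  have hne : ∀ k, ∃ x, x ∈ (R k).1 := fun k => (R k).2.2
  choose x hx using hne
  obtain ⟨k, l, hkl, h4⟩ := Finite.exists_ne_map_eq_of_infinite
    (fun k : ℕ => (⟨x k % 2 ^ n, Nat.mod_lt _ (by positivity)⟩ : Fin (2 ^ n)))
  have h5 : x k % 2 ^ n = x l % 2 ^ n := congrArg Fin.val h4
  have h6 : x l ∈ (R k).1 := key k _ (hx k) _ h5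
  have h7 : x l ∈ (R k).1 ∩ (R l).1 := ⟨h6, hx l⟩
  rw [h3 k l hkl] at h7
  exact h7

end PZM

end Pool.Agent.Q179.RZ
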