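import Pool.Agent.Q211.AM.Rem

/-!
# Hausdorff compactifications and remainders in transitive models: definitions
-/

set_option autoImplicit false

namespace Pool.Agent.Q179.RZ

open Pool.Agent.W868 Pool.Agent.Q211.SY Pool.Agent.Q211.FS Pool.Agent.Q211.AM Pool.Agent.Q211.TP
open ZFSet (pair)

/-- The space `(Y, τ)` is Hausdorff. -/
def HausIn (Y τ : ZFSet.{0}) : Prop :=
  ∀ a ∈ Y, ∀ b ∈ Y, a ≠ b → ∃ V ∈ τ, ∃ W ∈ τ, a ∈ V ∧ b ∈ W ∧ ∀ c ∈ V, c ∉ W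

/-- In `M`, the space `(X, ξ)` is locally compact: every point has a compact neighbourhood. -/
def LocCompactIn (M : Set ZFSet.{0}) (X ξ : ZFSet.{0}) : Prop :=
  ∀ x ∈ X, ∃ U ∈ ξ, ∃ K ∈ M, x ∈ U ∧ U ⊆ K ∧ K ⊆ X ∧ CompactIn M K (subTop ξ K)

/-- In `M`, the space `(Y, τ)` together with the embedding `i`, whose image is the set `B`, is a
Hausdorff compactification of the space `(X, ξ)`. -/
structure HCpt (M : Set ZFSet.{0}) (X ξ Y τ B i : ZFSet.{0}) : Prop where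
  YM : Y ∈ M
  τM : τ ∈ M
  BM : B ∈ M
  iM : i ∈ M
  top : IsTopIn M Y τ
  cpt : CompactIn M Y τ
  haus : HausIn Y τ
  sub : B ⊆ Y
  emb : IsHomeo X ξ B (subTop τ B) i
  dense : ∀ U ∈ τ, (∃ y, y ∈ U) → ∃ y ∈ U, y ∈ B

/-- In `M`, the space `(K, κ)` is homeomorphic to the remainder of a Hausdorff compactification
of the space `(X, ξ)`. -/
def IsRem (M : Set ZFSet.{0}) (X ξ K κ : ZFSet.{0}) : Prop :=
  ∃ Y τ B i, HCpt M X ξ Y τ B i ∧ ∃ h ∈ M, IsHomeo (Y \ B) (subTop τ (Y \ B)) K κ h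

/-- In `M`, the space `(X, ξ)` has a Hausdorff compactification whose remainder is denumerable. -/
def DenRem (M : Set ZFSet.{0}) (X ξ : ZFSet.{0}) : Prop :=
  ∃ Y τ B i, HCpt M X ξ Y τ B i ∧ ∃ b ∈ M, IsBij ZFSet.omega (Y \ B) b

end Pool.Agent.Q179.RZ
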