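import Pool.Agent.Q179.RZ.Sys

/-!
# The names and the model
-/

set_option autoImplicit false
set_option linter.unusedSectionVars false
set_option linter.unusedVariables false

namespace Pool.Agent.Q179.RZ

open Pool.Agent.W868 Pool.Agent.W868.PName Pool.Agent.Q211.SY Pool.Agent.Q211.FS
open Pool.Agent.Q211.PA Pool.Agent.Q211.AM Pool.Agent.Q211.TP
open ZFSet (pair)

/-- Codes of the periodic sets. -/
noncomputable def enc : BP → ℕ := (exists_injective_nat BP).choose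

theorem enc_injective : Function.Injective enc := (exists_injective_nat BP).choose_spec

/-- The condition with the value `a` at the column `c`. -/
noncomputable def one (c : Option ℕ × ℕ) (a : BP) : PZ := upd (⊤ : PZ) c.1 c.2 a

theorem one_self (c : Option ℕ × ℕ) (a : BP) : (one c a).1 c.1 c.2 = a := upd_self _ _ _ _

theorem one_ne {c d : Option ℕ × ℕ} (a : BP) (h : d ≠ c) : (one c a).1 d.1 d.2 = ⊤ :=
  upd_ne _ _ _ _ fun h' => h (Prod.ext h'.1 h'.2)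

theorem le_one {c : Option ℕ × ℕ} {a : BP} {p : PZ} : p ≤ one c a ↔ p.1 c.1 c.2 ≤ a := by
  constructor
  · intro h
    have h1 := h c.1 c.2
    rwa [one_self] at h1
  · intro h k i
    by_cases h2 : (k, i) = c
    · subst h2
      rwa [one_self]
    · have h3 := one_ne (d := (k, i)) a h2
      rw [h3]
      exact le_top

theorem sz_one_some (g : GZ) (d : ℕ × ℕ) (a : BP) : sz g (one (cs d) a) = one (cs (g.1.2 d)) a := by
  refine FP.ext' fun k i => ?_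
  cases k with
  | none =>
    have h1 : (none, i) ≠ cs d := fun h => absurd (Prod.ext_iff.1 h).1 (by simp [cs])
    have h2 : (none, i) ≠ cs (g.1.2 d) := fun h => absurd (Prod.ext_iff.1 h).1 (by simp [cs])
    have h3 := one_ne (d := (none, i)) a h1
    have h4 := one_ne (d := (none, i)) a h2
    rw [sz_none, h3, h4, rho_top]
  | some x =>
    by_cases h : (x, i) = g.1.2 d
    · have h1 := sz_at g (one (cs d) a) d
      have h2 := one_self (cs d) a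
      have h3 := one_self (cs (g.1.2 d)) a
      rw [← h] at h1 h3 ⊢
      exact (h1.trans h2).trans h3.symm
    · have h1 : (some x, i) ≠ cs (g.1.2 d) := fun h' => h (cs_injective h')
      have h2 : cs (g.1.2⁻¹ (x, i)) ≠ cs d := by
        intro h'
        refine h ?_
        rw [← cs_injective h', perm_self_inv]
      have h3 := one_ne (d := (some x, i)) a h1
      have h4 := one_ne a h2
      rw [sz_some, h3]
      exact h4

theorem sz_one_none (g : GZ) (j : ℕ) (a : BP) :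
    sz g (one (none, j) a) = one (none, j) (rho g.1.1 a) := by
  refine FP.ext' fun k i => ?_
  cases k with
  | none =>
    rw [sz_none]
    by_cases h : i = j
    · rw [h]
      have h1 := one_self (none, j) a
      have h2 := one_self (none, j) (rho g.1.1 a)
      rw [h2]
      exact congrArg _ h1
    · have h1 : (none, i) ≠ ((none, j) : Option ℕ × ℕ) := fun h' => h (Prod.ext_iff.1 h').2
      have h2 := one_ne (d := (none, i)) a h1
      have h3 := one_ne (d := (none, i)) (rho g.1.1 a) h1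
      rw [h2, h3, rho_top]
  | some x =>
    have h1 : ∀ y l, ((some y, l) : Option ℕ × ℕ) ≠ (none, j) := fun y l h' =>
      absurd (Prod.ext_iff.1 h').1 (by simp)
    have h2 := one_ne (d := (some x, i)) (rho g.1.1 a) (h1 x i)
    rw [sz_some, h2]
    exact one_ne (d := (some (g.1.2⁻¹ (x, i)).1, (g.1.2⁻¹ (x, i)).2)) a (h1 _ _)

/-! ### The names -/

/-- The name of the generic subset of the codes for the column `c`. -/
noncomputable def Cz (c : Option ℕ × ℕ) : PName PZ :=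
  PName.mk BP (fun a => check (nat (enc a))) (fun a => one c a)

/-- The name of the basic open set. -/
noncomputable def Bz (a : BP) : PName PZ :=
  PName.mk ℕ (fun j => check (nat j)) (fun j => one (none, j) a)

theorem az_Cz (g : GZ) (d : ℕ × ℕ) : az g (Cz (cs d)) = Cz (cs (g.1.2 d)) := by
  unfold az Cz
  rw [act]
  congr 1
  · funext t
    exact act_check (acZ_top g) _
  · funext t
    exact sz_one_some _ _ _

theorem az_Bz (g : GZ) (a : BP) : az g (Bz a) = Bz (rho g.1.1 a) := by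
  unfold az Bz
  rw [act]
  congr 1
  · funext t
    exact act_check (acZ_top g) _
  · funext t
    exact sz_one_none _ _ _

theorem az_check (g : GZ) (z : ZFSet.{0}) : az g (check z) = check z :=
  act_check (acZ_top _) _

theorem az_opN (g : GZ) (x y : PName PZ) : az g (opN x y) = opN (az g x) (az g y) :=
  act_opN (acZ_top _) _ _

/-- The name of the set of the values of a family of names. -/
def mkZ (ι : Type) (f : ι → PName PZ) : PName PZ := PName.mk ι f fun _ => ⊤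

theorem el_mkZ {ι : Type} {f : ι → PName PZ} {z : PName PZ} {c : PZ} :
    El (mkZ ι f) z c ↔ ∃ i, z = f i ∧ c = ⊤ := by
  rw [mkZ, el_mk]
  constructor
  · rintro ⟨i, rfl, rfl⟩
    exact ⟨i, rfl, rfl⟩
  · rintro ⟨i, rfl, rfl⟩
    exact ⟨i, rfl, rfl⟩

theorem az_mkZ (g : GZ) (ι : Type) (f : ι → PName PZ) :
    az g (mkZ ι f) = mkZ ι fun i => az g (f i) := by
  unfold az mkZ
  rw [act]
  congr 1
  funext i
  exact acZ_top g

theorem eqz_mkZ {ι κ : Type} {f : ι → PName PZ} {h : κ → PName PZ}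
    (h1 : ∀ i, ∃ j, Eqz (f i) (h j)) (h2 : ∀ j, ∃ i, Eqz (f i) (h j)) :
    Eqz (mkZ ι f) (mkZ κ h) := by
  intro p
  rw [feq_iff']
  constructor
  · intro a c ha q hq hqc
    obtain ⟨i, rfl, rfl⟩ := el_mkZ.1 ha
    obtain ⟨j, hj⟩ := h1 i
    exact ⟨q, le_rfl, h j, ⊤, el_mkZ.2 ⟨j, rfl, rfl⟩, le_top, hj q⟩
  · intro a c ha q hq hqc
    obtain ⟨j, rfl, rfl⟩ := el_mkZ.1 ha
    obtain ⟨i, hi⟩ := h2 j
    exact ⟨q, le_rfl, f i, ⊤, el_mkZ.2 ⟨i, rfl, rfl⟩, le_top, hi q⟩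

theorem mem_mkZ {π : Pkg PZ} {ι : Type} {f : ι → PName PZ} {z : ZFSet.{0}} :
    z ∈ π.val (mkZ ι f) ↔ ∃ i, f i ∈ π.N ∧ z = π.val (f i) := by
  rw [π.mem_val]
  constructor
  · rintro ⟨y, hy, c, hc, -, rfl⟩
    obtain ⟨i, rfl, -⟩ := el_mkZ.1 hc
    exact ⟨i, hy, rfl⟩
  · rintro ⟨i, hi, rfl⟩
    exact ⟨f i, hi, ⊤, el_mkZ.2 ⟨i, rfl, rfl⟩, ⟨0, le_top⟩, rfl⟩

/-- The name of the set that represents the point `x`. -/
noncomputable def Az (x : ℕ) : PName PZ := mkZ ℕ fun i => Cz (cs (x, i))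

theorem az_Az (g : GZ) (x : ℕ) : Eqz (az g (Az x)) (Az (g.1.1 • x)) := by
  unfold Az
  rw [az_mkZ]
  refine eqz_mkZ (fun i => ⟨(g.1.2 (x, i)).2, ?_⟩) fun j => ?_
  · rw [az_Cz]
    have h : g.1.2 (x, i) = (g.1.1 • x, (g.1.2 (x, i)).2) := Prod.ext (gg_fst g _) rfl
    rw [← h]
    exact Eqz.refl _
  · have h1 : (g.1.2⁻¹ (g.1.1 • x, j)).1 = x := by
      have h2 := gg_fst g (g.1.2⁻¹ (g.1.1 • x, j))
      rw [perm_self_inv] at h2
      exact (smul_left_cancel _ h2).symm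
    refine ⟨(g.1.2⁻¹ (g.1.1 • x, j)).2, ?_⟩
    rw [az_Cz]
    have h2 : (x, (g.1.2⁻¹ (g.1.1 • x, j)).2) = g.1.2⁻¹ (g.1.1 • x, j) := Prod.ext h1.symm rfl
    rw [h2, perm_self_inv]
    exact Eqz.refl _

/-- The name of the set of the points in `D`. -/
noncomputable def Sz (D : Set ℕ) : PName PZ := mkZ {x // x ∈ D} fun x => Az x.1

theorem az_Sz (g : GZ) (D : Set ℕ) : Eqz (az g (Sz D)) (Sz (im' g.1.1 D)) := by
  unfold Sz
  rw [az_mkZ]
  refine eqz_mkZ (fun i => ⟨⟨g.1.1 • i.1, smul_mem_im'.2 i.2⟩, az_Az g i.1⟩)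
    fun j => ⟨⟨g.1.1⁻¹ • j.1, j.2⟩, ?_⟩
  have h := az_Az g (g.1.1⁻¹ • j.1)
  rwa [smul_inv_smul] at h

/-- The name of the relation between basic open sets and sets of points. -/
noncomputable def Fz : PName PZ :=
  mkZ {t : BP × Set ℕ // AE t.2 t.1.1} fun t => opN (Bz t.1.1) (Sz t.1.2)

theorem az_Fz (g : GZ) : Eqz (az g Fz) Fz := by
  unfold Fz
  rw [az_mkZ]
  refine eqz_mkZ (fun t => ⟨⟨(rho g.1.1 t.1.1, im' g.1.1 t.1.2), ae_im_rho _ t.2⟩, ?_⟩)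
    fun t => ⟨⟨(rho g.1.1⁻¹ t.1.1, im' g.1.1⁻¹ t.1.2), ae_im_rho _ t.2⟩, ?_⟩
  · rw [az_opN, az_Bz]
    exact (Eqz.refl _).opN (az_Sz _ _)
  · rw [az_opN, az_Bz, ← rho_mul, mul_inv_cancel, rho_one]
    refine (Eqz.refl _).opN ?_
    have h1 := az_Sz g (im' g.1.1⁻¹ t.1.2)
    have h2 := im'_inv (γ := g.1.1⁻¹) (D := t.1.2)
    rw [inv_inv] at h2
    rwa [h2] at h1

/-! ### Symmetry -/

theorem im'_eq_self {n : ℕ} {a D : Set ℕ} (ha : Per n a)
    (hD : ∀ x, n ≤ x → (x ∈ D ↔ x ∈ a)) {g : Gam} (hg : g ∈ St n) : im' g D = D := by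
  ext x
  rw [mem_im']
  have hg' : g⁻¹ ∈ St n := (St n).inv_mem hg
  rcases lt_or_ge x n with hx | hx
  · rw [hg'.1 x hx]
  · have h1 : n ≤ g⁻¹ • x := by
      by_contra h2
      have h3 := hg'.1 (g⁻¹ • x) (by omega)
      have h4 : g⁻¹ • x = x := smul_left_cancel _ h3
      omega
    rw [hD _ h1, hD x hx]
    exact ha.congr (hg'.2 x)

theorem rho_eq_self {n : ℕ} {a : BP} (ha : Per n a.1) {g : Gam} (hg : g ∈ St n) :
    rho g a = a := by
  have h1 := ae_rho g a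
  rw [im'_eq_self ha (fun _ _ => Iff.rfl) hg] at h1
  obtain ⟨m, hm⟩ := (rho g a).2.1
  refine Subtype.ext ?_
  exact ((ha.mono (le_max_left n m)).eq_of_ae (hm.mono (le_max_right n m)) h1).symm

/-- The family of the sets that are almost equal to a periodic set. -/
def DZ : Set (Set ℕ) := {D | ∃ a, (∃ n, Per n a) ∧ AE D a}

theorem DZ_sym {D : Set ℕ} (hD : D ∈ DZ) : ∃ n, ∀ g ∈ St n, im' g D = D := by
  obtain ⟨a, ⟨n, hn⟩, h⟩ := hD
  obtain ⟨m, hm⟩ := finite_bound h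
  refine ⟨max n m, fun g hg => im'_eq_self (hn.mono (le_max_left _ _)) (fun x hx => ?_) hg⟩
  by_contra h1
  exact absurd (hm x h1) (not_lt.2 ((le_max_right _ _).trans hx))

theorem DZ_of {D : Set ℕ} {a : BP} (h : AE D a.1) : D ∈ DZ := ⟨a.1, a.2.1, h⟩

theorem DZ_im {D : Set ℕ} (hD : D ∈ DZ) (g : Gam) : im' g D ∈ DZ := by
  obtain ⟨a, hn, h⟩ := hD
  rcases Set.eq_empty_or_nonempty a with rfl | hne
  · exact ⟨∅, hn, ae_im g h⟩
  · exact DZ_of (ae_im_rho (a := ⟨a, hn, hne⟩) g h)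

theorem DZ_countable : DZ.Countable := by
  have h : DZ ⊆ ⋃ a ∈ insert ∅ (Set.range fun a : BP => a.1), {D | AE D a} := by
    rintro D ⟨a, hn, h⟩
    refine Set.mem_biUnion ?_ h
    rcases Set.eq_empty_or_nonempty a with rfl | hne
    · exact Or.inl rfl
    · exact Or.inr ⟨⟨a, hn, hne⟩, rfl⟩
  refine Set.Countable.mono h ?_
  exact ((Set.countable_range _).insert _).biUnion fun a _ => ae_countable a

theorem fx_Cz (n : ℕ) (d : ℕ × ℕ) : FzX n {d} (Cz (cs d)) := by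
  intro g _ hg
  rw [az_Cz, hg d (Finset.mem_singleton_self _)]
  exact Eqz.refl _

theorem hs_Cz (d : ℕ × ℕ) : SZ.HS (Cz (cs d)) := by
  refine SZ.hs_iff.2 ⟨sym_iffZ.2 ⟨0, _, fx_Cz 0 d⟩, fun z c hz => ?_⟩
  obtain ⟨t, rfl, rfl⟩ := hz
  exact SZ.hs_check _

theorem fx_Bz {n : ℕ} {a : BP} (ha : Per n a.1) (e : Finset (ℕ × ℕ)) : FzX n e (Bz a) := by
  intro g hg _
  rw [az_Bz, rho_eq_self ha hg]
  exact Eqz.refl _

theorem hs_Bz (a : BP) : SZ.HS (Bz a) := by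
  obtain ⟨n, hn⟩ := a.2.1
  refine SZ.hs_iff.2 ⟨sym_iffZ.2 ⟨n, ∅, fx_Bz hn ∅⟩, fun z c hz => ?_⟩
  obtain ⟨t, rfl, rfl⟩ := hz
  exact SZ.hs_check _

theorem hs_mkZ {ι : Type} {f : ι → PName PZ} {n : ℕ} {e : Finset (ℕ × ℕ)}
    (h : FzX n e (mkZ ι f)) (hf : ∀ i, SZ.HS (f i)) : SZ.HS (mkZ ι f) := by
  refine SZ.hs_iff.2 ⟨sym_iffZ.2 ⟨n, e, h⟩, fun z c hz => ?_⟩
  obtain ⟨i, rfl, -⟩ := el_mkZ.1 hz
  exact hf i

theorem hs_Az (x : ℕ) : SZ.HS (Az x) := by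
  refine hs_mkZ (n := x + 1) (e := ∅) (fun g hg _ => ?_) fun i => hs_Cz _
  have h := az_Az g x
  rwa [hg.1 x (Nat.lt_succ_self x)] at h

theorem hs_Sz {D : Set ℕ} (hD : D ∈ DZ) : SZ.HS (Sz D) := by
  obtain ⟨n, hn⟩ := DZ_sym hD
  refine hs_mkZ (n := n) (e := ∅) (fun g hg _ => ?_) fun i => hs_Az _
  have h := az_Sz g D
  rwa [hn _ hg] at h

theorem hs_Fz : SZ.HS Fz :=
  hs_mkZ (n := 0) (e := ∅) (fun g _ _ => az_Fz g)
    fun t => SZ.hs_opN (hs_Bz _) (hs_Sz (DZ_of t.2))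

theorem emb_one (σ : ℕ → Equiv.Perm ℕ) : (emb Gam σ).1.1 = 1 := rfl

theorem fzC_Az (x : ℕ) (e : Finset (ℕ × ℕ)) : FzC e (Az x) := by
  intro σ _
  have h1 := az_Az (emb Gam σ) x
  rwa [emb_one, one_smul] at h1

theorem fzC_Sz (D : Set ℕ) (e : Finset (ℕ × ℕ)) : FzC e (Sz D) := by
  intro σ _
  have h1 := az_Sz (emb Gam σ) D
  have h2 : im' (emb Gam σ).1.1 D = D := by
    ext x
    rw [emb_one, mem_im', inv_one, one_smul]
  rwa [h2] at h1

theorem fzC_Bz (a : BP) (e : Finset (ℕ × ℕ)) : FzC e (Bz a) := by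
  intro σ _
  rw [az_Bz, emb_one, rho_one]
  exact Eqz.refl _

theorem fzC_check (z : ZFSet.{0}) (e : Finset (ℕ × ℕ)) : FzC e (check z) := by
  intro σ _
  rw [az_check]
  exact Eqz.refl _

/-! ### Packages -/

/-- Conditions that separate two columns. -/
def DNz (c d : Option ℕ × ℕ) : Set PZ := {r | (r.1 c.1 c.2).1 ∩ (r.1 d.1 d.2).1 = ∅}

/-- Conditions that put a point into a basic open set. -/
def DEz (a : BP) : Set PZ := {r | ∃ j, r.1 none j ≤ a}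

/-- Conditions that decide the residue of a point. -/
def DCz (j n : ℕ) : Set PZ := {r | ∃ t, r.1 none j ≤ cl n t}

theorem DNz_dense {c d : Option ℕ × ℕ} (hcd : c ≠ d) (q : PZ) : ∃ r ≤ q, r ∈ DNz c d := by
  obtain ⟨a, ha, b, hb, hab⟩ := exists_disj (q.1 c.1 c.2) (q.1 d.1 d.2)
  have h1 : upd q c.1 c.2 a ≤ q := upd_le ha
  have h2 : (upd q c.1 c.2 a).1 d.1 d.2 = q.1 d.1 d.2 :=
    upd_ne _ _ _ _ fun h' => hcd (Prod.ext h'.1.symm h'.2.symm)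
  have h3 : upd (upd q c.1 c.2 a) d.1 d.2 b ≤ upd q c.1 c.2 a := by
    refine upd_le ?_
    rw [h2]
    exact hb
  refine ⟨_, h3.trans h1, ?_⟩
  have h4 : (upd (upd q c.1 c.2 a) d.1 d.2 b).1 c.1 c.2 = a := by
    rw [upd_ne _ _ _ _ fun h' => hcd (Prod.ext h'.1 h'.2), upd_self]
  change (((upd (upd q c.1 c.2 a) d.1 d.2 b).1 c.1 c.2).1 ∩ _) = ∅
  rw [h4, upd_self]
  exact hab

theorem DEz_dense (a : BP) (q : PZ) : ∃ r ≤ q, r ∈ DEz a := by
  classical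
  obtain ⟨i, hi⟩ := Infinite.exists_notMem_finset (q.supp.image Prod.snd)
  have h1 : q.1 none i = ⊤ := by
    by_contra h
    exact hi (Finset.mem_image.2 ⟨(none, i), FP.mem_supp.2 h, rfl⟩)
  refine ⟨upd q none i a, upd_le (by rw [h1]; exact le_top), i, ?_⟩
  rw [upd_self]

theorem DCz_dense (j n : ℕ) (q : PZ) : ∃ r ≤ q, r ∈ DCz j n := by
  obtain ⟨m, hm⟩ := (q.1 none j).2.1
  obtain ⟨x, hx⟩ := (q.1 none j).2.2
  refine ⟨upd q none j (cl (max n m) x), upd_le (cl_le (hm.mono (le_max_right _ _)) hx), x, ?_⟩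
  rw [upd_self]
  exact cl_anti (le_max_left _ _)

/-- The packages. -/
structure IsPZ (π : Pkg PZ) : Prop where
  cl : SZ.Cld π
  cz : ∀ c, Cz c ∈ π.N
  az : ∀ x, Az x ∈ π.N
  bz : ∀ a, Bz a ∈ π.N
  sz : ∀ D ∈ DZ, Sz D ∈ π.N
  fz : Fz ∈ π.N
  dn : ∀ c d, Sys.nm PZ (DNz c d) ∈ π.N
  de : ∀ a, Sys.nm PZ (DEz a) ∈ π.N
  dc : ∀ j n, Sys.nm PZ (DCz j n) ∈ π.N

theorem exists_PZ : ∃ π, IsPZ π := by
  have hD : Countable {D // D ∈ DZ} := DZ_countable.to_subtype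
  obtain ⟨π, h1, -, h3, -⟩ := Sys.exists_cld SZ
    (Set.range Cz ∪ (Set.range Az ∪ (Set.range Bz ∪ ((Set.range fun D : {D // D ∈ DZ} => Sz D.1) ∪
      ({Fz} ∪ ((Set.range fun t : (Option ℕ × ℕ) × (Option ℕ × ℕ) => Sys.nm PZ (DNz t.1 t.2)) ∪
      ((Set.range fun a : BP => Sys.nm PZ (DEz a)) ∪
      Set.range fun t : ℕ × ℕ => Sys.nm PZ (DCz t.1 t.2))))))))
    ((Set.countable_range _).union ((Set.countable_range _).union ((Set.countable_range _).union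
      ((Set.countable_range _).union ((Set.countable_singleton _).union
      ((Set.countable_range _).union ((Set.countable_range _).union
      (Set.countable_range _)))))))) ∅ Set.countable_empty ⊤
  exact ⟨π, ⟨h3, fun c => h1 (Or.inl ⟨c, rfl⟩), fun x => h1 (Or.inr (Or.inl ⟨x, rfl⟩)),
    fun a => h1 (Or.inr (Or.inr (Or.inl ⟨a, rfl⟩))),
    fun D hD => h1 (Or.inr (Or.inr (Or.inr (Or.inl ⟨⟨D, hD⟩, rfl⟩)))),
    h1 (Or.inr (Or.inr (Or.inr (Or.inr (Or.inl rfl))))),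
    fun c d => h1 (Or.inr (Or.inr (Or.inr (Or.inr (Or.inr (Or.inl ⟨(c, d), rfl⟩)))))),
    fun a => h1 (Or.inr (Or.inr (Or.inr (Or.inr (Or.inr (Or.inr (Or.inl ⟨a, rfl⟩))))))),
    fun j n => h1 (Or.inr (Or.inr (Or.inr (Or.inr (Or.inr (Or.inr (Or.inr ⟨(j, n), rfl⟩)))))))⟩⟩

/-- The generic set of natural numbers. -/
def bs (π : Pkg PZ) (a : BP) : Set ℕ := {j | InB π (none, j) a}

namespace IsPZ

variable {π : Pkg PZ} (h : IsPZ π)

include h

theorem mem_Cz {c : Option ℕ × ℕ} {z : ZFSet.{0}} :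
    z ∈ π.val (Cz c) ↔ ∃ a, InB π c a ∧ z = nat (enc a) := by
  rw [π.mem_val]
  constructor
  · rintro ⟨y, hy, d, ⟨a, rfl, rfl⟩, ⟨m, hm⟩, rfl⟩
    exact ⟨a, ⟨m, le_one.1 hm⟩, π.hat_nat _⟩
  · rintro ⟨a, ⟨m, hm⟩, rfl⟩
    exact ⟨check (nat (enc a)), π.nat_Z _, _, ⟨a, rfl, rfl⟩, ⟨m, le_one.2 hm⟩, π.hat_nat _⟩

theorem mem_Bz {a : BP} {z : ZFSet.{0}} : z ∈ π.val (Bz a) ↔ ∃ j ∈ bs π a, z = nat j := by
  rw [π.mem_val]
  constructor
  · rintro ⟨y, hy, d, ⟨j, rfl, rfl⟩, ⟨m, hm⟩, rfl⟩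
    exact ⟨j, ⟨m, le_one.1 hm⟩, π.hat_nat _⟩
  · rintro ⟨j, ⟨m, hm⟩, rfl⟩
    exact ⟨check (nat j), π.nat_Z _, _, ⟨j, rfl, rfl⟩, ⟨m, le_one.2 hm⟩, π.hat_nat _⟩

theorem sep {c d : Option ℕ × ℕ} (hcd : c ≠ d) :
    ∃ a b, InB π c a ∧ InB π d b ∧ a.1 ∩ b.1 = ∅ := by
  obtain ⟨k, -, r, hr, hk⟩ := gen_dense π (h.dn c d) (m := 0) fun q _ => DNz_dense hcd q
  exact ⟨_, _, ⟨k, hk c.1 c.2⟩, ⟨k, hk d.1 d.2⟩, hr⟩

theorem Cz_injective {c d : Option ℕ × ℕ} (hcd : π.val (Cz c) = π.val (Cz d)) : c = d := by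
  by_contra hne
  obtain ⟨a, b, ha, hb, hab⟩ := h.sep hne
  have h1 : nat (enc a) ∈ π.val (Cz c) := h.mem_Cz.2 ⟨a, ha, rfl⟩
  rw [hcd, h.mem_Cz] at h1
  obtain ⟨a', ha', h2⟩ := h1
  have h3 := enc_injective (nat_injective h2)
  rw [← h3] at ha'
  obtain ⟨e, -, h4, h5⟩ := ha'.chain hb
  obtain ⟨x, hx⟩ := e.2.2
  have h6 : x ∈ a.1 ∩ b.1 := ⟨h4 hx, h5 hx⟩
  rw [hab] at h6
  exact h6

theorem mem_Az {x : ℕ} {z : ZFSet.{0}} : z ∈ π.val (Az x) ↔ ∃ i, z = π.val (Cz (cs (x, i))) := by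
  unfold Az
  rw [mem_mkZ]
  constructor
  · rintro ⟨i, -, rfl⟩
    exact ⟨i, rfl⟩
  · rintro ⟨i, rfl⟩
    exact ⟨i, h.cz _, rfl⟩

theorem Az_injective : Function.Injective fun x => π.val (Az x) := by
  intro x y hxy
  have h1 : π.val (Cz (cs (x, 0))) ∈ π.val (Az x) := h.mem_Az.2 ⟨0, rfl⟩
  have hxy' : π.val (Az x) = π.val (Az y) := hxy
  rw [hxy', h.mem_Az] at h1
  obtain ⟨j, hj⟩ := h1
  exact (Prod.ext_iff.1 (cs_injective (h.Cz_injective hj))).1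

end IsPZ

/-- What holds for all elements of a basic subgroup that fix some cones. -/
def Esc (bs : BP → Set ℕ) (n : ℕ) (P : Gam → Prop) : Prop :=
  ∃ (F : Finset ℕ) (C : ℕ → BP), (∀ j ∈ F, j ∈ bs (C j)) ∧
    ∀ C' : ℕ → BP, (∀ j ∈ F, C' j ≤ C j ∧ j ∈ bs (C' j)) →
      ∀ γ ∈ St n, (∀ j ∈ F, rho γ (C' j) = C' j) → P γ

/-- The properties of the model. -/
structure PZM (M : Set ZFSet.{0}) (at' : ℕ → ZFSet.{0}) (st : Set ℕ → ZFSet.{0})
    (bs : BP → Set ℕ) (bz : BP → ZFSet.{0}) : Prop where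
  zf : IsZF M
  cnt : M.Countable
  inj : Function.Injective at'
  atM : ∀ x, at' x ∈ M
  mst : ∀ D ∈ DZ, ∀ z, z ∈ st D ↔ ∃ x ∈ D, z = at' x
  stM : ∀ D ∈ DZ, st D ∈ M
  mbz : ∀ a z, z ∈ bz a ↔ ∃ j ∈ bs a, z = nat j
  bzM : ∀ a, bz a ∈ M
  mono : ∀ {a b}, a ≤ b → bs a ⊆ bs b
  top : bs ⊤ = Set.univ
  ne : ∀ a, (bs a).Nonempty
  comp : ∀ {j a b}, j ∈ bs a → j ∈ bs b → ∃ d, j ∈ bs d ∧ d ≤ a ∧ d ≤ b
  cls : ∀ j n, ∃ t, j ∈ bs (cl n t)
  sep : ∀ {j k}, j ≠ k → ∃ a b, j ∈ bs a ∧ k ∈ bs b ∧ a.1 ∩ b.1 = ∅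
  rl : ∃ F ∈ M, ∀ z, z ∈ F ↔ ∃ (a : BP) (D : Set ℕ), AE D a.1 ∧ z = pair (bz a) (st D)
  inv : ∀ f ∈ M, ∃ n, ∀ r, Cd r →
    ∀ Q : Set ZFSet.{0} → (Fin 3 → ZFSet.{0}) → Prop, UD Q →
      (∀ x, Q M ![f, at' x, r] → Esc bs n fun γ => Q M ![f, at' (γ • x), r]) ∧
      (∀ D ∈ DZ, Q M ![f, st D, r] → Esc bs n fun γ => Q M ![f, st (im' γ D), r]) ∧
      (∀ a, Q M ![f, bz a, r] → Esc bs n fun γ => Q M ![f, bz (rho γ a), r])

theorem exists_pzm : ∃ M at' st bs bz, PZM M at' st bs bz := by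
  classical
  obtain ⟨π, h⟩ := exists_PZ
  have hM : IsZF (SZ.Ms π) := T_ZF.isZF h.cl
  have hat : ∀ z, Cd z → π.val (check z) = z := fun z hz => (hz.hat π).2
  refine ⟨SZ.Ms π, fun x => π.val (Az x), fun D => π.val (Sz D), bs π, fun a => π.val (Bz a),
    hM, (π.cnt.mono fun _ hx => hx.1).image _, h.Az_injective, fun x => Sys.mem_Ms (h.az x)
    (hs_Az x), fun D hD z => ?_, fun D hD => Sys.mem_Ms (h.sz D hD) (hs_Sz hD),
    fun a z => h.mem_Bz, fun a => Sys.mem_Ms (h.bz a) (hs_Bz a), fun hab j hj => hj.mono hab,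
    Set.eq_univ_of_forall fun j => inB_top π _, fun a => ?_, fun ha hb => ha.chain hb,
    fun j n => ?_, fun hjk => ?_, ?_, ?_⟩
  · unfold Sz
    rw [mem_mkZ]
    constructor
    · rintro ⟨i, -, h1⟩
      exact ⟨i.1, i.2, h1⟩
    · rintro ⟨x, hx, h1⟩
      exact ⟨⟨x, hx⟩, h.az x, h1⟩
  · obtain ⟨k, -, r, ⟨j, hj⟩, hk⟩ := gen_dense π (h.de a) (m := 0) fun q _ => DEz_dense a q
    exact ⟨j, k, (hk none j).trans hj⟩
  · obtain ⟨k, -, r, ⟨t, ht⟩, hk⟩ := gen_dense π (h.dc j n) (m := 0) fun q _ => DCz_dense j n q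
    exact ⟨t, k, (hk none j).trans ht⟩
  · exact h.sep fun h' => hjk (Prod.ext_iff.1 h').2
  · refine ⟨_, Sys.mem_Ms h.fz hs_Fz, fun z => ?_⟩
    unfold Fz
    rw [mem_mkZ]
    constructor
    · rintro ⟨t, -, h1⟩
      refine ⟨t.1.1, t.1.2, t.2, ?_⟩
      rw [h1, π.val_opN (h.bz _) (h.sz _ (DZ_of t.2))]
    · rintro ⟨a, D, hD, h1⟩
      refine ⟨⟨(a, D), hD⟩, π.opN_mem (h.bz _) (h.sz _ (DZ_of hD)), ?_⟩
      rw [h1, π.val_opN (h.bz _) (h.sz _ (DZ_of hD))]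
  · rintro _ ⟨x, ⟨hx, hxS⟩, rfl⟩
    obtain ⟨n0, e, hfx⟩ := sym_iffZ.1 hxS.sym
    obtain ⟨m0, hm0⟩ : ∃ m, ∀ d ∈ e, d.1 < m :=
      ⟨e.sup (fun d => d.1 + 1), fun d hd => Finset.le_sup (f := fun d : ℕ × ℕ => d.1 + 1) hd⟩
    refine ⟨max n0 m0, fun r hr Q hQ => ?_⟩
    -- the general step
    have key : ∀ (y : PName PZ) (y' : Gam → PName PZ), FzC e y → y ∈ π.N → SZ.HS y →
        (∀ γ, y' γ ∈ π.N ∧ SZ.HS (y' γ)) → (∀ g : GZ, Eqz (RZ.az g y) (y' g.1.1)) →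
        Q (SZ.Ms π) ![π.val x, π.val y, r] →
        Esc (bs π) (max n0 m0) fun γ => Q (SZ.Ms π) ![π.val x, π.val (y' γ), r] := by
      intro y y' hy1 hy2 hy3 hy4 hy5 hq
      have t1 : ∀ i, FzC e ((![x, y, check r] : Fin 3 → PName PZ) i) := by
        intro i
        refine Fin.cases hfx.fzC (fun i => Fin.cases hy1 (fun i => Fin.cases
          (fzC_check _ _) (fun i => i.elim0) i) i) i
      have t2 : ∀ y : PName PZ, y ∈ π.N → SZ.HS y → ∀ i,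
          (![x, y, check r] : Fin 3 → PName PZ) i ∈ π.N ∧
          SZ.HS ((![x, y, check r] : Fin 3 → PName PZ) i) := by
        intro y h1 h2 i
        refine Fin.cases ⟨hx, hxS⟩ (fun i => Fin.cases ⟨h1, h2⟩ (fun i =>
          Fin.cases ⟨(hr.hat π).1, Sys.hs_check _ _⟩ (fun i => i.elim0) i) i) i
      have t4 : ∀ y : PName PZ, (π.val ∘ (![x, y, check r] : Fin 3 → PName PZ)) =
          ![π.val x, π.val y, r] := by
        intro y
        funext i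
        refine Fin.cases rfl (fun i => Fin.cases rfl (fun i => Fin.cases ?_ (fun i => i.elim0) i)
          i) i
        exact hat r hr
      obtain ⟨F, C, hC, h1⟩ := transferZ h.cl hQ t1 (t2 y hy2 hy3) (by rw [t4]; exact hq)
      refine ⟨F, C, hC, fun C' hC' γ hγ hγC => ?_⟩
      have hγ0 : γ ∈ St n0 := St_mono (le_max_left _ _) hγ
      have hγe : ∀ d ∈ e, γ • d.1 = d.1 := fun d hd =>
        hγ.1 d.1 (lt_of_lt_of_le (hm0 d hd) (le_max_right _ _))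
      obtain ⟨g, hg1, hg2⟩ := exists_gg_fix γ e hγe
      have t3 : ∀ i, Eqz (RZ.az g ((![x, y, check r] : Fin 3 → PName PZ) i))
          ((![x, y' γ, check r] : Fin 3 → PName PZ) i) := by
        intro i
        refine Fin.cases ?_ (fun i => Fin.cases ?_ (fun i => Fin.cases ?_ (fun i => i.elim0) i)
          i) i
        · exact hfx g (by rw [hg1]; exact hγ0) hg2
        · have h2 := hy5 g
          rwa [hg1] at h2
        · change Eqz (RZ.az g (check r)) (check r)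
          rw [az_check]
          exact Eqz.refl _
      have h2 := h1 C' hC' g hg2 (by rw [hg1]; exact hγC) _
        (t2 (y' γ) (hy4 γ).1 (hy4 γ).2) t3
      rwa [t4] at h2
    refine ⟨fun a => ?_, fun D hD => ?_, fun a => ?_⟩
    · exact key (Az a) (fun γ => Az (γ • a)) (fzC_Az _ _) (h.az _) (hs_Az _)
        (fun γ => ⟨h.az _, hs_Az _⟩) fun g => az_Az g a
    · exact key (Sz D) (fun γ => Sz (im' γ D)) (fzC_Sz _ _) (h.sz _ hD) (hs_Sz hD)
        (fun γ => ⟨h.sz _ (DZ_im hD γ), hs_Sz (DZ_im hD γ)⟩) fun g => az_Sz g D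
    · refine key (Bz a) (fun γ => Bz (rho γ a)) (fzC_Bz _ _) (h.bz _) (hs_Bz _)
        (fun γ => ⟨h.bz _, hs_Bz _⟩) fun g => ?_
      rw [az_Bz]
      exact Eqz.refl _

end Pool.Agent.Q179.RZ
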