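import Pool.Agent.Q179.RZ.Top

/-!
# The convergent sequence is not a remainder
-/

set_option autoImplicit false
set_option linter.unusedSectionVars false
set_option linter.unusedVariables false
set_option linter.unreachableTactic false
set_option linter.unusedTactic false

namespace Pool.Agent.Q179.RZ

open Pool.Agent.W868 Pool.Agent.W868.PName Pool.Agent.Q211.SY Pool.Agent.Q211.FS
open Pool.Agent.Q211.PA Pool.Agent.Q211.AM Pool.Agent.Q211.TP
open ZFSet (pair)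

theorem univ_DZ : Set.univ ∈ DZ := ⟨Set.univ, ⟨0, per_univ 0⟩, AE.refl _⟩

theorem omega_ne_nat (n : ℕ) : ZFSet.omega ≠ nat n := by
  intro hn
  have h1 : nat n ∈ ZFSet.omega := mem_omega_iff.2 ⟨n, rfl⟩
  rw [hn] at h1
  exact ZFSet.mem_irrefl _ h1

namespace PZM

variable {M : Set ZFSet.{0}} {at' : ℕ → ZFSet.{0}} {st : Set ℕ → ZFSet.{0}}
  {bs : BP → Set ℕ} {bz : BP → ZFSet.{0}} (h : PZM M at' st bs bz)

include h

/-- The space `ω + 1` is not a remainder of the discrete space of the points. -/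
theorem no_om1 : ¬ ∃ K ∈ M, ∃ κ ∈ M, IsOm1 M K κ ∧
    IsRem M (st Set.univ) (PM M (st Set.univ)) K κ := by
  classical
  rintro ⟨K, hKM, κ, hκM, hK, Y, τ, B, i, hc, g, hgM, hg⟩
  have hM := h.zf
  have hB := hM.base
  have hu := univ_DZ
  have hAM := h.stM _ hu
  have hmA : ∀ z, z ∈ st Set.univ ↔ ∃ x, z = at' x := by
    intro z
    rw [h.mst _ hu]
    simp
  have hatA : ∀ x, at' x ∈ st Set.univ := fun x => (hmA _).2 ⟨x, rfl⟩
  obtain ⟨A, hA⟩ : ∃ A, A = st Set.univ := ⟨_, rfl⟩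
  rw [← hA] at hc hAM hmA hatA
  have hPA := PM_mem hM hAM
  have hYM := hc.YM
  have hτM := hc.τM
  have hBM := hc.BM
  have hiM := hc.iM
  -- the points of `B`
  have hex : ∀ x, ∃ y, pair (at' x) y ∈ i ∧ y ∈ B ∧ ∀ z, pair (at' x) z ∈ i → z = y := by
    intro x
    obtain ⟨y, hy, hy'⟩ := hc.emb.1.1.1.2 _ (hatA x)
    exact ⟨y, hy, (ZFSet.pair_mem_prod.1 (hc.emb.1.1.1.1 hy)).2, fun z hz => hy' z hz⟩
  choose e he heB heu using hex
  have hei : Function.Injective e := by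
    intro x y hxy
    have h1 := he x
    rw [hxy] at h1
    exact h.inj (hc.emb.1.1.2 _ _ _ h1 (he y))
  have hes : ∀ b ∈ B, ∃ x, b = e x := by
    intro b hb
    obtain ⟨a, ha, hab⟩ := hc.emb.1.2 b hb
    obtain ⟨x, rfl⟩ := (hmA a).1 ha
    exact ⟨x, heu x b hab⟩
  -- the points of the remainder
  have hnK : ∀ n : ℕ, nat n ∈ K := fun n => (hK.1 _).2 (Or.inl (mem_omega_iff.2 ⟨n, rfl⟩))
  have hey : ∀ n : ℕ, ∃ y, y ∈ Y ∧ y ∉ B ∧ pair y (nat n) ∈ g := by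
    intro n
    obtain ⟨y, hy, h1⟩ := hg.1.2 _ (hnK n)
    obtain ⟨h2, h3⟩ := ZFSet.mem_sdiff.1 hy
    exact ⟨y, h2, h3, h1⟩
  choose q hqY hqB hq using hey
  have hqu : ∀ (n : ℕ) z, pair z (nat n) ∈ g ↔ z = q n := by
    intro n z
    constructor
    · intro hz
      exact hg.1.1.2 _ _ _ hz (hq n)
    · rintro rfl
      exact hq n
  have hqi : ∀ n m, q n = q m → n = m := by
    intro n m hnm
    have h1 := hq n
    rw [hnm] at h1
    exact nat_injective ((hg.1.1.1.2 _ (ZFSet.mem_sdiff.2 ⟨hqY m, hqB m⟩)).unique h1 (hq m))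
  -- the good sets
  let G : ℕ → ZFSet.{0} → Prop := fun n V => V ∈ τ ∧ (∃ V' ∈ τ, ∀ z ∈ Y, (z ∈ V' ↔ z ∉ V)) ∧
    ∀ z ∈ Y, z ∉ B → (z ∈ V ↔ z = q n)
  have hG : ∀ n, ∃ V, G n V := by
    intro n
    have h1 : ({q n} : ZFSet.{0}) ⊆ Y \ B := by
      intro z hz
      rw [ZFSet.mem_singleton.1 hz]
      exact ZFSet.mem_sdiff.2 ⟨hqY n, hqB n⟩
    have h2 : ZFSet.sep (fun y => ∃ x ∈ ({q n} : ZFSet.{0}), pair x y ∈ g) K = {nat n} := by
      ext z
      rw [ZFSet.mem_sep, ZFSet.mem_singleton]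
      constructor
      · rintro ⟨hz, x, hx, h3⟩
        rw [ZFSet.mem_singleton.1 hx] at h3
        exact (hg.1.1.1.2 _ (ZFSet.mem_sdiff.2 ⟨hqY n, hqB n⟩)).unique h3 (hq n)
      · rintro rfl
        exact ⟨hnK n, _, ZFSet.mem_singleton.2 rfl, hq n⟩
    have h3 : ({q n} : ZFSet.{0}) ∈ subTop τ (Y \ B) := by
      rw [hg.2 _ h1, h2, hK.2]
      refine ⟨hM.single_mem (hM.nat_mem n), fun z hz => ?_, fun h4 => ?_⟩
      · rw [ZFSet.mem_singleton.1 hz]
        exact hnK n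
      · exact absurd (ZFSet.mem_singleton.1 h4) (omega_ne_nat n)
    obtain ⟨W, hW, h4⟩ := mem_subTop.1 h3
    have h5 : ∀ z, z ∈ W → z ∈ Y → z ∉ B → z = q n := by
      intro z hz hzY hzB
      have h6 : z ∈ W ∩ (Y \ B) := ZFSet.mem_inter.2 ⟨hz, ZFSet.mem_sdiff.2 ⟨hzY, hzB⟩⟩
      rw [← h4] at h6
      exact ZFSet.mem_singleton.1 h6
    have h6 : q n ∈ W := by
      have h7 : q n ∈ W ∩ (Y \ B) := h4 ▸ ZFSet.mem_singleton.2 rfl
      exact (ZFSet.mem_inter.1 h7).1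
    obtain ⟨V, hV, V', hV', h7, h8, h9⟩ := hc.exists_clopen hM h6 hW
      fun z hz hzB => h5 z hz (hc.top.sub _ hW hz) hzB
    refine ⟨V, hV, ⟨V', hV', h7⟩, fun z hz hzB => ⟨fun h10 => h5 z (h9 h10) hz hzB, ?_⟩⟩
    rintro rfl
    exact h8
  have hGfin' : ∀ n V W, G n V → G n W → {x | e x ∈ V ∧ e x ∉ W}.Finite := by
    rintro n V W ⟨hV, ⟨V', hV', h1⟩, h2⟩ ⟨hW, ⟨W', hW', h3⟩, h4⟩
    have h5 := hc.clopen_finite hM (hc.top.inter _ hV _ hW') (hc.union2 hM hV' hW)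
      (fun z hz => by
        rw [ZFSet.mem_union, ZFSet.mem_inter, h1 z hz, h3 z hz]
        tauto) (fun z hz => by
        obtain ⟨h6, h7⟩ := ZFSet.mem_inter.1 hz
        have hzY := hc.top.sub _ hV h6
        by_contra h8
        have h9 := (h2 z hzY h8).1 h6
        exact (h3 z hzY).1 h7 ((h4 z hzY h8).2 h9))
    refine Set.Finite.subset (Set.Finite.preimage (f := e) hei.injOn h5) fun x hx => ?_
    exact ZFSet.mem_inter.2 ⟨hx.1, (h3 _ (hc.sub (heB x))).2 hx.2⟩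
  have hGfin : ∀ n V W, G n V → G n W → AE {x | e x ∈ V} {x | e x ∈ W} := by
    intro n V W hV hW
    refine Set.Finite.subset ((hGfin' n V W hV hW).union (hGfin' n W V hW hV)) fun x hx => ?_
    have hx' : ¬ (e x ∈ V ↔ e x ∈ W) := hx
    by_cases h1 : e x ∈ V
    · exact Or.inl ⟨h1, fun h2 => hx' ⟨fun _ => h2, fun _ => h1⟩⟩
    · refine Or.inr ⟨?_, h1⟩
      by_contra h2
      exact hx' ⟨fun h3 => absurd h3 h1, fun h3 => absurd h3 h2⟩
  have hGdisj : ∀ n m V W, n ≠ m → G n V → G m W → {x | e x ∈ V ∧ e x ∈ W}.Finite := by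
    rintro n m V W hnm ⟨hV, ⟨V', hV', h1⟩, h2⟩ ⟨hW, ⟨W', hW', h3⟩, h4⟩
    have h5 := hc.clopen_finite hM (hc.top.inter _ hV _ hW) (hc.union2 hM hV' hW')
      (fun z hz => by
        rw [ZFSet.mem_union, ZFSet.mem_inter, h1 z hz, h3 z hz]
        tauto) (fun z hz => by
        obtain ⟨h6, h7⟩ := ZFSet.mem_inter.1 hz
        have hzY := hc.top.sub _ hV h6
        by_contra h8
        have h9 := (h2 z hzY h8).1 h6
        have h10 := (h4 z hzY h8).1 h7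
        exact hnm (hqi _ _ (h9.symm.trans h10)))
    refine Set.Finite.subset (Set.Finite.preimage (f := e) hei.injOn h5) fun x hx => ?_
    exact ZFSet.mem_inter.2 ⟨hx.1, hx.2⟩
  have hGinf : ∀ n V, G n V → {x | e x ∈ V}.Infinite := by
    rintro n V ⟨hV, -, h2⟩ hfin
    have h3 : {z | z ∈ V}.Finite := by
      refine Set.Finite.subset ((hfin.image e).union (Set.finite_singleton (q n))) fun z hz => ?_
      have hzY := hc.top.sub _ hV hz
      by_cases hzB : z ∈ B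
      · obtain ⟨x, rfl⟩ := hes z hzB
        exact Or.inl ⟨x, hz, rfl⟩
      · exact Or.inr ((h2 z hzY hzB).1 hz)
    exact hqB n (hc.finite_open hM hV h3 _ ((h2 _ (hqY n) (hqB n)).2 rfl))
  choose V hV using hG
  have hVM : ∀ n, V n ∈ M := fun n => hc.mem_M hM (hV n).1
  -- the sets of points
  have hS : ∀ n, {x | e x ∈ V n} ∈ DZ := by
    intro n
    have hVn := hVM n
    have h1 : ZFSet.sep (fun a => ∃ y ∈ V n, pair a y ∈ i) A ∈ M := by
      generalize V n = W at hVn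
      refine hM.sep_mem (Q := fun a => ∃ y ∈ W, pair a y ∈ i) ?_ hAM
      (repeat' first
        | assumption
        | exact DfnF.proj _
        | exact DfnF.const (by assumption)
        | exact Dfn.prop _
        | apply hB.pair'
        | apply Dfn.not | apply Dfn.and | apply Dfn.or | apply Dfn.imp | apply Dfn.iff
        | apply hB.bex | apply hB.ball | apply Dfn.ex | apply Dfn.all
        | apply Dfn.eq | apply Dfn.mem)
    have h2 := (h.sub_DZ h1 fun z hz => (hmA z).1 (ZFSet.mem_sep.1 hz).1).1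
    convert h2 using 1
    ext x
    rw [Set.mem_ofPred_eq, Set.mem_ofPred_eq, ZFSet.mem_sep]
    constructor
    · intro hx
      exact ⟨hatA x, _, hx, he x⟩
    · rintro ⟨-, y, hy, h3⟩
      rw [← heu x y h3]
      exact hy
  have hR : ∀ n, ∃ a : BP, AE {x | e x ∈ V n} a.1 := by
    intro n
    obtain ⟨a, ha, h1⟩ := hS n
    rcases Set.eq_empty_or_nonempty a with rfl | hne
    · exact absurd (h1.finite Set.finite_empty) (hGinf n _ (hV n))
    · exact ⟨⟨a, ha, hne⟩, h1⟩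
  choose R hR using hR
  -- the sequence
  have hprod := hM.prod_mem hM.infinity hPA
  have hom := hM.infinity
  have hfM : ZFSet.sep (fun p => ∃ n ∈ ZFSet.omega, ∃ S ∈ PM M A, p = pair n S ∧
      ∃ V ∈ τ, (∃ V' ∈ τ, ∀ z ∈ Y, (z ∈ V' ↔ z ∉ V)) ∧
      (∀ z ∈ Y, z ∉ B → (z ∈ V ↔ pair z n ∈ g)) ∧ ∀ a ∈ A, (a ∈ S ↔ ∃ y ∈ V, pair a y ∈ i))
      (ZFSet.prod ZFSet.omega (PM M A)) ∈ M := by
    generalize PM M A = PA at hPA hprod
    refine hM.sep_mem (Q := fun p => ∃ n ∈ ZFSet.omega, ∃ S ∈ PA, p = pair n S ∧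
      ∃ V ∈ τ, (∃ V' ∈ τ, ∀ z ∈ Y, (z ∈ V' ↔ z ∉ V)) ∧
      (∀ z ∈ Y, z ∉ B → (z ∈ V ↔ pair z n ∈ g)) ∧ ∀ a ∈ A, (a ∈ S ↔ ∃ y ∈ V, pair a y ∈ i))
      ?_ hprod
    (repeat' first
      | assumption
      | exact DfnF.proj _
      | exact DfnF.const (by assumption)
      | exact Dfn.prop _
      | apply hB.pair'
      | apply Dfn.not | apply Dfn.and | apply Dfn.or | apply Dfn.imp | apply Dfn.iff
      | apply hB.bex | apply hB.ball | apply Dfn.ex | apply Dfn.all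
      | apply Dfn.eq | apply Dfn.mem)
  obtain ⟨f, hf⟩ : ∃ f, f = ZFSet.sep (fun p => ∃ n ∈ ZFSet.omega, ∃ S ∈ PM M A, p = pair n S ∧
      ∃ V ∈ τ, (∃ V' ∈ τ, ∀ z ∈ Y, (z ∈ V' ↔ z ∉ V)) ∧
      (∀ z ∈ Y, z ∉ B → (z ∈ V ↔ pair z n ∈ g)) ∧ ∀ a ∈ A, (a ∈ S ↔ ∃ y ∈ V, pair a y ∈ i))
      (ZFSet.prod ZFSet.omega (PM M A)) := ⟨_, rfl⟩
  rw [← hf] at hfM
  have hmf : ∀ (n : ℕ) D, D ∈ DZ → (pair (nat n) (st D) ∈ f ↔
      ∃ V, G n V ∧ D = {x | e x ∈ V}) := by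
    intro n D hD
    rw [hf, ZFSet.mem_sep]
    have hn : nat n ∈ ZFSet.omega := mem_omega_iff.2 ⟨n, rfl⟩
    constructor
    · rintro ⟨-, n', hn', S, hS, h1, V, hV, h2, h3, h4⟩
      obtain ⟨rfl, rfl⟩ := ZFSet.pair_inj.1 h1
      refine ⟨V, ⟨hV, h2, fun z hz hzB => ?_⟩, ?_⟩
      · rw [h3 z hz hzB, hqu]
      · ext x
        rw [← h.mem_st hD, h4 _ (hatA x), Set.mem_ofPred_eq]
        constructor
        · rintro ⟨y, hy, h5⟩
          rw [← heu x y h5]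
          exact hy
        · intro h5
          exact ⟨_, h5, he x⟩
    · rintro ⟨V, ⟨hV, h2, h3⟩, hDV⟩
      have hstP : st D ∈ PM M A := by
        refine mem_PM.2 ⟨h.stM D hD, fun z hz => ?_⟩
        obtain ⟨x, -, rfl⟩ := (h.mst D hD z).1 hz
        exact hatA x
      refine ⟨ZFSet.pair_mem_prod.2 ⟨hn, hstP⟩, nat n, hn, _, hstP, rfl, V, hV, h2,
        fun z hz hzB => ?_, fun a ha => ?_⟩
      · rw [h3 z hz hzB, hqu]
      · obtain ⟨x, rfl⟩ := (hmA a).1 ha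
        rw [h.mem_st hD, hDV, Set.mem_ofPred_eq]
        constructor
        · intro h5
          exact ⟨_, h5, he x⟩
        · rintro ⟨y, hy, h5⟩
          rw [← heu x y h5]
          exact hy
  refine h.no_seq hfM (R := R) (fun k => ⟨_, hS k, (hmf k _ (hS k)).2 ⟨V k, hV k, rfl⟩⟩)
    (fun k D hD hDf => ?_) fun k l hkl => ?_
  · obtain ⟨W, hW, rfl⟩ := (hmf k D hD).1 hDf
    exact (hGfin k W (V k) hW (hV k)).trans (hR k)
  · have h1 : ((R k).1 ∩ (R l).1).Finite :=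
      ((hR k).inter (hR l)).symm.finite (hGdisj k l _ _ hkl (hV k) (hV l))
    rcases Set.eq_empty_or_nonempty ((R k).1 ∩ (R l).1) with h2 | h2
    · exact h2
    · obtain ⟨n, hn⟩ := (R k).2.1
      obtain ⟨m, hm⟩ := (R l).2.1
      exact absurd h1 (((hn.mono (le_max_left n m)).inter
        (hm.mono (le_max_right n m))).infinite h2)

end PZM

end Pool.Agent.Q179.RZ
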