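import Pool.Agent.Q179.RZ.Neg

/-!
# A compactification with a denumerable remainder
-/

set_option autoImplicit false
set_option linter.unusedSectionVars false
set_option linter.unusedVariables false
set_option linter.unreachableTactic false
set_option linter.unusedTactic false

namespace Pool.Agent.Q179.RZ

open Pool.Agent.W868 Pool.Agent.W868.PName Pool.Agent.Q211.SY Pool.Agent.Q211.FS
open Pool.Agent.Q211.PA Pool.Agent.Q211.AM Pool.Agent.Q211.TP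
open ZFSet (pair)

theorem bp_DZ (a : BP) : a.1 ∈ DZ := DZ_of (AE.refl a.1)

/-! ### Discrete spaces -/

theorem disc_top {M : Set ZFSet.{0}} (hM : IsZF M) {A : ZFSet.{0}} (hA : A ∈ M) :
    IsTopIn M A (PM M A) := by
  refine ⟨fun U hU => (mem_PM.1 hU).2, mem_PM.2 ⟨hA, fun z hz => hz⟩, fun U hU V hV => ?_,
    fun C hC hCP => ?_⟩
  · obtain ⟨h1, h2⟩ := mem_PM.1 hU
    obtain ⟨h3, h4⟩ := mem_PM.1 hV
    have h5 : U ∩ V = ZFSet.sep (fun z => z ∈ V) U := by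
      ext z
      rw [ZFSet.mem_inter, ZFSet.mem_sep]
    refine mem_PM.2 ⟨?_, fun z hz => h2 (ZFSet.mem_inter.1 hz).1⟩
    rw [h5]
    exact hM.sep_mem (Q := fun z => z ∈ V) (Dfn.mem (DfnF.proj 0) (DfnF.const h3)) h1
  · refine mem_PM.2 ⟨hM.union _ hC, fun z hz => ?_⟩
    obtain ⟨V, hV, hz⟩ := ZFSet.mem_sUnion.1 hz
    exact (mem_PM.1 (hCP hV)).2 hz

theorem disc_haus {M : Set ZFSet.{0}} (hM : IsZF M) {A : ZFSet.{0}} (hA : A ∈ M) :
    HausIn A (PM M A) := by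
  have h1 : ∀ a ∈ A, ({a} : ZFSet.{0}) ∈ PM M A := fun a ha =>
    mem_PM.2 ⟨hM.single_mem (hM.trans _ hA _ ha), fun z hz => by
      rw [ZFSet.mem_singleton.1 hz]
      exact ha⟩
  intro a ha b hb hab
  refine ⟨_, h1 a ha, _, h1 b hb, ZFSet.mem_singleton.2 rfl, ZFSet.mem_singleton.2 rfl,
    fun c hc h2 => hab ?_⟩
  rw [← ZFSet.mem_singleton.1 hc, ZFSet.mem_singleton.1 h2]

theorem disc_loc {M : Set ZFSet.{0}} (hM : IsZF M) {A : ZFSet.{0}} (hA : A ∈ M) :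
    LocCompactIn M A (PM M A) := by
  intro a ha
  have h0 : ({a} : ZFSet.{0}) ∈ M := hM.single_mem (hM.trans _ hA _ ha)
  have h1 : ({a} : ZFSet.{0}) ⊆ A := fun z hz => by
    rw [ZFSet.mem_singleton.1 hz]
    exact ha
  refine ⟨{a}, mem_PM.2 ⟨h0, h1⟩, {a}, h0, ZFSet.mem_singleton.2 rfl, fun z hz => hz, h1,
    fun C hC _ hcov => ?_⟩
  obtain ⟨U, hU, haU⟩ := hcov a (ZFSet.mem_singleton.2 rfl)
  refine ⟨{U}, fun V hV => by rwa [Finset.mem_singleton.1 hV], fun z hz => ⟨U,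
    Finset.mem_singleton_self _, ?_⟩⟩
  rw [ZFSet.mem_singleton.1 hz]
  exact haU

namespace PZM

variable {M : Set ZFSet.{0}} {at' : ℕ → ZFSet.{0}} {st : Set ℕ → ZFSet.{0}}
  {bs : BP → Set ℕ} {bz : BP → ZFSet.{0}} (h : PZM M at' st bs bz)

include h

theorem disj {a b : BP} (hab : a.1 ∩ b.1 = ∅) {j : ℕ} (ha : j ∈ bs a) (hb : j ∈ bs b) : False := by
  obtain ⟨d, -, h1, h2⟩ := h.comp ha hb
  obtain ⟨x, hx⟩ := d.2.2
  have h3 : x ∈ a.1 ∩ b.1 := ⟨h1 hx, h2 hx⟩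
  rw [hab] at h3
  exact h3

theorem bz_inj {a b : BP} (hab : bz a = bz b) : a = b := by
  have key : ∀ a b : BP, bz a = bz b → a ≤ b := by
    intro a b hab x hx
    by_contra hxb
    obtain ⟨n, hn⟩ := a.2.1
    obtain ⟨m, hm⟩ := b.2.1
    have h1 : cl (max n m) x ≤ a := cl_le (hn.mono (le_max_left _ _)) hx
    obtain ⟨j, hj⟩ := h.ne (cl (max n m) x)
    have h2 : nat j ∈ bz b := by
      rw [← hab]
      exact h.mem_bz.2 (h.mono h1 hj)
    refine h.disj (a := cl (max n m) x) (b := b) ?_ hj (h.mem_bz.1 h2)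
    ext y
    constructor
    · rintro ⟨h3, h4⟩
      exact hxb (((hm.mono (le_max_right n m)).congr (mem_cl.1 h3)).1 h4)
    · exact fun h => h.elim
  exact le_antisymm (key a b hab) (key b a hab.symm)

theorem bs_jn {a b : BP} {j : ℕ} (hj : j ∈ bs (jn a b)) : j ∈ bs a ∨ j ∈ bs b := by
  obtain ⟨n, hn⟩ := a.2.1
  obtain ⟨m, hm⟩ := b.2.1
  obtain ⟨t, ht⟩ := h.cls j (max n m)
  obtain ⟨d, -, h1, h2⟩ := h.comp ht hj
  obtain ⟨x, hx⟩ := d.2.2
  have h3 := mem_cl.1 (h1 hx)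
  rcases h2 hx with h4 | h4
  · left
    refine h.mono (cl_le (hn.mono (le_max_left _ _)) ?_) ht
    exact ((hn.mono (le_max_left n m)).congr h3).1 h4
  · right
    refine h.mono (cl_le (hm.mono (le_max_right _ _)) ?_) ht
    exact ((hm.mono (le_max_right n m)).congr h3).1 h4

/-- The discrete space of the points has a denumerable remainder. -/
theorem denRem : DenRem M (st Set.univ) (PM M (st Set.univ)) := by
  classical
  have hM := h.zf
  have hB := hM.base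
  have hom : ZFSet.omega ∈ M := hM.infinity
  have hu := univ_DZ
  have hAM := h.stM _ hu
  have hmA : ∀ z, z ∈ st Set.univ ↔ ∃ x, z = at' x := by
    intro z
    rw [h.mst _ hu]
    simp
  have hatA : ∀ x, at' x ∈ st Set.univ := fun x => (hmA _).2 ⟨x, rfl⟩
  obtain ⟨A, hA⟩ : ∃ A, A = st Set.univ := ⟨_, rfl⟩
  rw [← hA] at hAM hmA hatA ⊢
  have hPA := PM_mem hM hAM
  have hPo := PM_mem hM hom
  -- the points of the remainder
  have hq : ∀ z, pair A z ∉ A := by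
    intro z hz
    have h1 : ZFSet.rank ({A} : ZFSet.{0}) < ZFSet.rank (pair A z) := by
      refine ZFSet.rank_lt_of_mem ?_
      rw [pair, ZFSet.mem_pair]
      exact Or.inl rfl
    have h2 : ZFSet.rank A < ZFSet.rank ({A} : ZFSet.{0}) :=
      ZFSet.rank_lt_of_mem (ZFSet.mem_singleton.2 rfl)
    exact absurd (ZFSet.rank_lt_of_mem hz) (not_lt.2 (h2.trans h1).le)
  have hRM : ZFSet.prod {A} ZFSet.omega ∈ M := hM.prod_mem (hM.single_mem hAM) hom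
  have hmP : ∀ (S : ZFSet.{0}) y, y ∈ ZFSet.prod {A} S ↔ ∃ z ∈ S, y = pair A z := by
    intro S y
    rw [ZFSet.mem_prod]
    constructor
    · rintro ⟨a, ha, z, hz, rfl⟩
      exact ⟨z, hz, by rw [ZFSet.mem_singleton.1 ha]⟩
    · rintro ⟨z, hz, rfl⟩
      exact ⟨A, ZFSet.mem_singleton.2 rfl, z, hz, rfl⟩
  have hmR : ∀ y, y ∈ ZFSet.prod {A} ZFSet.omega ↔ ∃ j : ℕ, y = pair A (nat j) := by
    intro y
    rw [hmP]
    constructor
    · rintro ⟨z, hz, rfl⟩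
      obtain ⟨j, rfl⟩ := mem_omega_iff.1 hz
      exact ⟨j, rfl⟩
    · rintro ⟨j, rfl⟩
      exact ⟨nat j, mem_omega_iff.2 ⟨j, rfl⟩, rfl⟩
  have hYM : A ∪ ZFSet.prod {A} ZFSet.omega ∈ M := hM.union_mem hAM hRM
  obtain ⟨Y, hY⟩ : ∃ Y, Y = A ∪ ZFSet.prod {A} ZFSet.omega := ⟨_, rfl⟩
  rw [← hY] at hYM
  have hmY : ∀ y, y ∈ Y ↔ y ∈ A ∨ ∃ j : ℕ, y = pair A (nat j) := by
    intro y
    rw [hY, ZFSet.mem_union, hmR]
  have hYA : Y \ A = ZFSet.prod {A} ZFSet.omega := by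
    ext y
    rw [ZFSet.mem_sdiff, hmY, hmR]
    constructor
    · rintro ⟨h1 | h1, h2⟩
      · exact absurd h1 h2
      · exact h1
    · rintro ⟨z, rfl⟩
      exact ⟨Or.inr ⟨z, rfl⟩, hq _⟩
  have hPY := PM_mem hM hYM
  have hatY : ∀ x, at' x ∈ Y := fun x => (hmY _).2 (Or.inl (hatA x))
  have hqY : ∀ n : ℕ, pair A (nat n) ∈ Y := fun n => (hmY _).2 (Or.inr ⟨n, rfl⟩)
  have hatq : ∀ x z, at' x ≠ pair A z := fun x z h1 => hq z (h1 ▸ hatA x)
  have hqinj : ∀ i j : ℕ, pair A (nat i) = pair A (nat j) → i = j := fun i j h1 =>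
    nat_injective (ZFSet.pair_inj.1 h1).2
  -- the topology
  obtain ⟨F, hFM, hF⟩ := h.rl
  have hmF : ∀ b S, pair b S ∈ F ↔ ∃ (a : BP) (D : Set ℕ), AE D a.1 ∧ b = bz a ∧ S = st D := by
    intro b S
    rw [hF]
    constructor
    · rintro ⟨a, D, hD, h1⟩
      obtain ⟨rfl, rfl⟩ := ZFSet.pair_inj.1 h1
      exact ⟨a, D, hD, rfl, rfl⟩
    · rintro ⟨a, D, hD, rfl, rfl⟩
      exact ⟨a, D, hD, rfl⟩
  have hstA : ∀ {D}, D ∈ DZ → st D ∈ PM M A := by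
    intro D hD
    refine mem_PM.2 ⟨h.stM D hD, fun z hz => ?_⟩
    obtain ⟨x, -, rfl⟩ := (h.mst D hD z).1 hz
    exact hatA x
  have hbzo : ∀ a, bz a ∈ PM M ZFSet.omega := by
    intro a
    refine mem_PM.2 ⟨h.bzM a, fun z hz => ?_⟩
    obtain ⟨j, -, rfl⟩ := (h.mbz a z).1 hz
    exact mem_omega_iff.2 ⟨j, rfl⟩
  let P : ZFSet.{0} → Prop := fun U => ∀ n ∈ ZFSet.omega, pair A n ∈ U →
    ∃ b ∈ PM M ZFSet.omega, ∃ S ∈ PM M A, pair b S ∈ F ∧ n ∈ b ∧ (∀ m ∈ b, pair A m ∈ U) ∧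
      ∀ a ∈ S, a ∈ U
  have hτM : ZFSet.sep P (PM M Y) ∈ M := by
    refine hM.sep_mem (Q := P) ?_ hPY
    simp only [P]
    generalize PM M A = PA at hPA
    generalize PM M ZFSet.omega = Po at hPo
    (repeat' first
      | assumption
      | exact DfnF.proj _
      | exact DfnF.const (by assumption)
      | exact Dfn.prop _
      | apply hB.pair'
      | apply Dfn.not | apply Dfn.and | apply Dfn.or | apply Dfn.imp | apply Dfn.iff
      | apply hB.bex | apply hB.ball | apply Dfn.ex | apply Dfn.all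
      | apply Dfn.eq | apply Dfn.mem)
  obtain ⟨τ, hτ⟩ : ∃ τ, τ = ZFSet.sep P (PM M Y) := ⟨_, rfl⟩
  rw [← hτ] at hτM
  have mτ : ∀ U, U ∈ τ ↔ U ∈ M ∧ U ⊆ Y ∧ ∀ j : ℕ, pair A (nat j) ∈ U →
      ∃ a : BP, j ∈ bs a ∧ (∀ i ∈ bs a, pair A (nat i) ∈ U) ∧
        {x | x ∈ a.1 ∧ at' x ∉ U}.Finite := by
    intro U
    rw [hτ, ZFSet.mem_sep, mem_PM, and_assoc]
    refine and_congr_right fun hUM => and_congr_right fun hUY => ?_
    constructor
    · intro h1 j hj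
      obtain ⟨b, -, S, -, h2, h3, h4, h5⟩ := h1 _ (mem_omega_iff.2 ⟨j, rfl⟩) hj
      obtain ⟨a, D, hD, rfl, rfl⟩ := (hmF b S).1 h2
      refine ⟨a, h.mem_bz.1 h3, fun i hi => h4 _ (h.mem_bz.2 hi), Set.Finite.subset hD
        fun x hx h6 => hx.2 (h5 _ ((h.mem_st (DZ_of hD)).2 (h6.2 hx.1)))⟩
    · intro h1 n hn hnU
      obtain ⟨j, rfl⟩ := mem_omega_iff.1 hn
      obtain ⟨a, h2, h3, h4⟩ := h1 j hnU
      have hD : AE {x | x ∈ a.1 ∧ at' x ∈ U} a.1 := by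
        refine Set.Finite.subset h4 fun x hx => ?_
        by_contra h5
        refine hx ⟨fun h6 => h6.1, fun h6 => ⟨h6, ?_⟩⟩
        by_contra h7
        exact h5 ⟨h6, h7⟩
      refine ⟨bz a, hbzo a, st _, hstA (DZ_of hD), (hmF _ _).2 ⟨a, _, hD, rfl, rfl⟩,
        h.mem_bz.2 h2, fun m hm => ?_, fun z hz => ?_⟩
      · obtain ⟨i, hi, rfl⟩ := (h.mbz a m).1 hm
        exact h3 i hi
      · obtain ⟨x, hx, rfl⟩ := (h.mst _ (DZ_of hD) z).1 hz
        exact hx.2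
  have htop : IsTopIn M Y τ := by
    refine ⟨fun U hU => ((mτ U).1 hU).2.1, (mτ Y).2 ⟨hYM, fun _ h1 => h1, fun j _ => ?_⟩,
      fun U hU V hV => ?_, fun C hC hCτ => ?_⟩
    · refine ⟨⊤, ?_, fun i _ => hqY i, Set.Finite.subset Set.finite_empty fun x hx =>
        hx.2 (hatY x)⟩
      rw [h.top]
      trivial
    · obtain ⟨u1, u2, u3⟩ := (mτ U).1 hU
      obtain ⟨v1, v2, v3⟩ := (mτ V).1 hV
      have h5 : U ∩ V = ZFSet.sep (fun z => z ∈ V) U := by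
        ext z
        rw [ZFSet.mem_inter, ZFSet.mem_sep]
      refine (mτ _).2 ⟨?_, fun z hz => u2 (ZFSet.mem_inter.1 hz).1, fun j hj => ?_⟩
      · rw [h5]
        exact hM.sep_mem (Q := fun z => z ∈ V) (Dfn.mem (DfnF.proj 0) (DfnF.const v1)) u1
      · obtain ⟨hjU, hjV⟩ := ZFSet.mem_inter.1 hj
        obtain ⟨a, a1, a2, a3⟩ := u3 j hjU
        obtain ⟨b, b1, b2, b3⟩ := v3 j hjV
        obtain ⟨d, d1, d2, d3⟩ := h.comp a1 b1
        refine ⟨d, d1, fun i hi => ZFSet.mem_inter.2 ⟨a2 i (h.mono d2 hi), b2 i (h.mono d3 hi)⟩,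
          Set.Finite.subset (a3.union b3) fun x hx => ?_⟩
        by_cases hxU : at' x ∈ U
        · exact Or.inr ⟨d3 hx.1, fun h6 => hx.2 (ZFSet.mem_inter.2 ⟨hxU, h6⟩)⟩
        · exact Or.inl ⟨d2 hx.1, hxU⟩
    · refine (mτ _).2 ⟨hM.union _ hC, fun z hz => ?_, fun j hj => ?_⟩
      · obtain ⟨V, hV, hz⟩ := ZFSet.mem_sUnion.1 hz
        exact ((mτ V).1 (hCτ hV)).2.1 hz
      · obtain ⟨V, hV, hz⟩ := ZFSet.mem_sUnion.1 hj
        obtain ⟨a, a1, a2, a3⟩ := ((mτ V).1 (hCτ hV)).2.2 j hz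
        exact ⟨a, a1, fun i hi => ZFSet.mem_sUnion.2 ⟨V, hV, a2 i hi⟩, a3.subset fun x hx =>
          ⟨hx.1, fun h6 => hx.2 (ZFSet.mem_sUnion.2 ⟨V, hV, h6⟩)⟩⟩
  -- compactness
  have hcpt : CompactIn M Y τ := by
    intro C hC hCτ hcov
    let PJ : ZFSet.{0} → Prop := fun b => ∃ S ∈ PM M A, pair b S ∈ F ∧ ∃ n ∈ ZFSet.omega,
      ∃ s ∈ M, ZFSet.IsFunc n C s ∧ (∀ m ∈ b, ∃ U ∈ C, (∃ t ∈ n, pair t U ∈ s) ∧ pair A m ∈ U) ∧
        ∀ a ∈ S, ∃ U ∈ C, (∃ t ∈ n, pair t U ∈ s) ∧ a ∈ U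
    have hJM : ZFSet.sep PJ (PM M ZFSet.omega) ∈ M := by
      refine hM.sep_mem (Q := PJ) ?_ hPo
      simp only [PJ]
      generalize PM M A = PA at hPA
      (repeat' first
        | assumption
        | exact DfnF.proj _
        | exact DfnF.const (by assumption)
        | exact Dfn.prop _
        | apply hB.isFunc'
        | apply hB.pair'
        | apply Dfn.not | apply Dfn.and | apply Dfn.or | apply Dfn.imp | apply Dfn.iff
        | apply hB.bex | apply hB.ball | apply Dfn.ex | apply Dfn.all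
        | apply Dfn.eq | apply Dfn.mem)
    have mJ : ∀ a : BP, bz a ∈ ZFSet.sep PJ (PM M ZFSet.omega) ↔ ∃ W : Finset ZFSet.{0},
        (∀ U ∈ W, U ∈ C) ∧ (∀ i ∈ bs a, ∃ U ∈ W, pair A (nat i) ∈ U) ∧
        {x | x ∈ a.1 ∧ ∀ U ∈ W, at' x ∉ U}.Finite := by
      intro a
      rw [ZFSet.mem_sep]
      constructor
      · rintro ⟨-, S, -, h2, n, hn, s, -, hs, h3, h4⟩
        obtain ⟨a', D, hD, h5, rfl⟩ := (hmF _ _).1 h2
        have h6 := h.bz_inj h5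
        subst h6
        obtain ⟨W, hW⟩ := seq_finset hn hs
        refine ⟨W, fun U hU => ?_, fun i hi => ?_, Set.Finite.subset hD fun x hx h7 => ?_⟩
        · obtain ⟨t, ht⟩ := (hW U).1 hU
          exact (ZFSet.pair_mem_prod.1 (hs.1 ht)).2
        · obtain ⟨U, -, ⟨t, -, ht⟩, h8⟩ := h3 _ (h.mem_bz.2 hi)
          exact ⟨U, (hW U).2 ⟨t, ht⟩, h8⟩
        · obtain ⟨U, -, ⟨t, -, ht⟩, h8⟩ := h4 _ ((h.mem_st (DZ_of hD)).2 (h7.2 hx.1))
          exact hx.2 U ((hW U).2 ⟨t, ht⟩) h8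
      · rintro ⟨W, hW, h3, h4⟩
        have hD : AE {x | x ∈ a.1 ∧ ∃ U ∈ W, at' x ∈ U} a.1 := by
          refine Set.Finite.subset h4 fun x hx => ?_
          by_contra h5
          refine hx ⟨fun h6 => h6.1, fun h6 => ⟨h6, ?_⟩⟩
          by_contra h7
          push Not at h7
          exact h5 ⟨h6, h7⟩
        obtain ⟨n, hn, s, hsM, hs, hsW⟩ := finset_seq hM hC W hW
        refine ⟨hbzo a, st _, hstA (DZ_of hD), (hmF _ _).2 ⟨a, _, hD, rfl, rfl⟩, n, hn, s, hsM, hs,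
          fun m hm => ?_, fun z hz => ?_⟩
        · obtain ⟨i, hi, rfl⟩ := (h.mbz a m).1 hm
          obtain ⟨U, hU, h8⟩ := h3 i hi
          obtain ⟨t, ht⟩ := (hsW U).2 hU
          exact ⟨U, hW U hU, ⟨t, (ZFSet.pair_mem_prod.1 (hs.1 ht)).1, ht⟩, h8⟩
        · obtain ⟨x, hx, rfl⟩ := (h.mst _ (DZ_of hD) z).1 hz
          obtain ⟨U, hU, h8⟩ := hx.2
          obtain ⟨t, ht⟩ := (hsW U).2 hU
          exact ⟨U, hW U hU, ⟨t, (ZFSet.pair_mem_prod.1 (hs.1 ht)).1, ht⟩, h8⟩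
    have hJ1 := h.compact_core hJM (fun a b hab hb => ?_) (fun a b ha hb => ?_) fun j => ?_
    · obtain ⟨W, hW, h1, h2⟩ := (mJ _).1 hJ1
      choose u hu1 hu2 using hcov
      refine ⟨W ∪ h2.toFinset.image fun x => u (at' x) (hatY x), fun U hU => ?_, fun y hy => ?_⟩
      · rcases Finset.mem_union.1 hU with hU | hU
        · exact hW U hU
        · obtain ⟨x, -, rfl⟩ := Finset.mem_image.1 hU
          exact hu1 _ _
      · rcases (hmY y).1 hy with hy | ⟨j, rfl⟩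
        · obtain ⟨x, rfl⟩ := (hmA y).1 hy
          by_cases hx : ∃ U ∈ W, at' x ∈ U
          · obtain ⟨U, hU, hxU⟩ := hx
            exact ⟨U, Finset.mem_union_left _ hU, hxU⟩
          · push Not at hx
            exact ⟨_, Finset.mem_union_right _ (Finset.mem_image_of_mem _
              (h2.mem_toFinset.2 ⟨trivial, hx⟩)), hu2 _ _⟩
        · obtain ⟨U, hU, hjU⟩ := h1 j (by rw [h.top]; trivial)
          exact ⟨U, Finset.mem_union_left _ hU, hjU⟩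
    · obtain ⟨W, hW, h1, h2⟩ := (mJ _).1 hb
      exact (mJ _).2 ⟨W, hW, fun i hi => h1 i (h.mono hab hi), h2.subset fun x hx =>
        ⟨hab hx.1, hx.2⟩⟩
    · obtain ⟨W, hW, h1, h2⟩ := (mJ _).1 ha
      obtain ⟨W', hW', h3, h4⟩ := (mJ _).1 hb
      refine (mJ _).2 ⟨W ∪ W', fun U hU => ?_, fun i hi => ?_,
        (h2.union h4).subset fun x hx => ?_⟩
      · rcases Finset.mem_union.1 hU with hU | hU
        · exact hW U hU
        · exact hW' U hU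
      · rcases h.bs_jn hi with hi | hi
        · obtain ⟨U, hU, h5⟩ := h1 i hi
          exact ⟨U, Finset.mem_union_left _ hU, h5⟩
        · obtain ⟨U, hU, h5⟩ := h3 i hi
          exact ⟨U, Finset.mem_union_right _ hU, h5⟩
      · rcases hx.1 with h5 | h5
        · exact Or.inl ⟨h5, fun U hU => hx.2 U (Finset.mem_union_left _ hU)⟩
        · exact Or.inr ⟨h5, fun U hU => hx.2 U (Finset.mem_union_right _ hU)⟩
    · obtain ⟨U, hU, hjU⟩ := hcov _ (hqY j)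
      obtain ⟨a, a1, a2, a3⟩ := ((mτ U).1 (hCτ hU)).2.2 j hjU
      refine ⟨a, a1, (mJ _).2 ⟨{U}, fun V hV => by rwa [Finset.mem_singleton.1 hV],
        fun i hi => ⟨U, Finset.mem_singleton_self _, a2 i hi⟩, a3.subset fun x hx =>
        ⟨hx.1, hx.2 U (Finset.mem_singleton_self _)⟩⟩⟩
  have hsd : ∀ S ∈ M, Y \ S ∈ M := by
    intro S hS
    have h8 : Y \ S = ZFSet.sep (fun z => z ∉ S) Y := by
      ext z
      rw [ZFSet.mem_sep, ZFSet.mem_sdiff]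
    rw [h8]
    exact hM.sep_mem (Q := fun z => z ∉ S)
      (Dfn.not (Dfn.mem (DfnF.proj 0) (DfnF.const hS))) hYM
  -- atoms are isolated
  have hone : ∀ x, ({at' x} : ZFSet.{0}) ∈ τ ∧ Y \ {at' x} ∈ τ := by
    intro x
    constructor
    · refine (mτ _).2 ⟨hM.single_mem (h.atM x), fun z hz => ?_, fun n hn => ?_⟩
      · rw [ZFSet.mem_singleton.1 hz]
        exact hatY x
      · exact absurd (ZFSet.mem_singleton.1 hn).symm (hatq x _)
    · refine (mτ _).2 ⟨hsd _ (hM.single_mem (h.atM x)), fun z hz => (ZFSet.mem_sdiff.1 hz).1,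
        fun n hn => ⟨⊤, by rw [h.top]; trivial, fun i _ => ZFSet.mem_sdiff.2 ⟨hqY i, fun h3 =>
          hatq x _ (ZFSet.mem_singleton.1 h3).symm⟩, (Set.finite_singleton x).subset
          fun y hy => ?_⟩⟩
      by_contra h1
      refine hy.2 (ZFSet.mem_sdiff.2 ⟨hatY y, fun h2 => h1 ?_⟩)
      exact h.inj (ZFSet.mem_singleton.1 h2)
  -- basic open sets
  have hbas : ∀ a : BP, st a.1 ∪ ZFSet.prod {A} (bz a) ∈ τ ∧
      (∀ x, at' x ∈ st a.1 ∪ ZFSet.prod {A} (bz a) ↔ x ∈ a.1) ∧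
      ∀ j : ℕ, pair A (nat j) ∈ st a.1 ∪ ZFSet.prod {A} (bz a) ↔ j ∈ bs a := by
    intro a
    have h1 : ∀ x, at' x ∈ st a.1 ∪ ZFSet.prod {A} (bz a) ↔ x ∈ a.1 := by
      intro x
      rw [ZFSet.mem_union, hmP, h.mem_st (bp_DZ a)]
      constructor
      · rintro (h1 | ⟨z, -, h2⟩)
        · exact h1
        · exact absurd h2 (hatq x z)
      · exact Or.inl
    have h2 : ∀ j : ℕ, pair A (nat j) ∈ st a.1 ∪ ZFSet.prod {A} (bz a) ↔ j ∈ bs a := by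
      intro j
      rw [ZFSet.mem_union, hmP]
      constructor
      · rintro (h2 | ⟨z, hz, h3⟩)
        · exact absurd ((mem_PM.1 (hstA (bp_DZ a))).2 h2) (hq _)
        · rw [← (ZFSet.pair_inj.1 h3).2] at hz
          exact h.mem_bz.1 hz
      · intro hj
        exact Or.inr ⟨_, h.mem_bz.2 hj, rfl⟩
    refine ⟨(mτ _).2 ⟨hM.union_mem (h.stM _ (bp_DZ a)) (hM.prod_mem (hM.single_mem hAM)
      (h.bzM a)), fun z hz => ?_, fun j hj => ⟨a, (h2 j).1 hj, fun i hi => (h2 i).2 hi,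
      Set.finite_empty.subset fun x hx => hx.2 ((h1 x).2 hx.1)⟩⟩, h1, h2⟩
    rcases ZFSet.mem_union.1 hz with hz | hz
    · exact (hmY z).2 (Or.inl ((mem_PM.1 (hstA (bp_DZ a))).2 hz))
    · obtain ⟨w, hw, rfl⟩ := (hmP _ _).1 hz
      obtain ⟨j, -, rfl⟩ := (h.mbz a w).1 hw
      exact hqY j
  have hhaus : HausIn Y τ := by
    intro a ha b hb hab
    rcases (hmY a).1 ha with ha' | ⟨j, rfl⟩
    · obtain ⟨x, rfl⟩ := (hmA a).1 ha'
      exact ⟨_, (hone x).1, _, (hone x).2, ZFSet.mem_singleton.2 rfl, ZFSet.mem_sdiff.2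
        ⟨hb, fun h1 => hab (ZFSet.mem_singleton.1 h1).symm⟩, fun c hc h1 =>
        (ZFSet.mem_sdiff.1 h1).2 hc⟩
    · rcases (hmY b).1 hb with hb' | ⟨k, rfl⟩
      · obtain ⟨x, rfl⟩ := (hmA b).1 hb'
        exact ⟨_, (hone x).2, _, (hone x).1, ZFSet.mem_sdiff.2
          ⟨ha, fun h1 => hab (ZFSet.mem_singleton.1 h1)⟩, ZFSet.mem_singleton.2 rfl, fun c hc h1 =>
          (ZFSet.mem_sdiff.1 hc).2 h1⟩
      · have hjk : j ≠ k := fun h1 => hab (by rw [h1])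
        obtain ⟨a, b, h1, h2, h3⟩ := h.sep hjk
        obtain ⟨a1, a2, a3⟩ := hbas a
        obtain ⟨b1, b2, b3⟩ := hbas b
        refine ⟨_, a1, _, b1, (a3 j).2 h1, (b3 k).2 h2, fun c hc hc' => ?_⟩
        rcases (hmY c).1 (htop.sub _ a1 hc) with h4 | ⟨i, rfl⟩
        · obtain ⟨x, rfl⟩ := (hmA c).1 h4
          have h5 : x ∈ a.1 ∩ b.1 := ⟨(a2 x).1 hc, (b2 x).1 hc'⟩
          rw [h3] at h5
          exact h5
        · exact h.disj h3 ((a3 i).1 hc) ((b3 i).1 hc')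
  -- the embedding
  have hiM : ZFSet.sep (fun p => ∃ a ∈ A, p = pair a a) (ZFSet.prod A A) ∈ M := by
    refine hM.sep_mem (Q := fun p => ∃ a ∈ A, p = pair a a) ?_ (hM.prod_mem hAM hAM)
    (repeat' first
      | assumption
      | exact DfnF.proj _
      | exact DfnF.const (by assumption)
      | exact Dfn.prop _
      | apply hB.pair'
      | apply Dfn.not | apply Dfn.and | apply Dfn.or | apply Dfn.imp | apply Dfn.iff
      | apply hB.bex | apply hB.ball | apply Dfn.ex | apply Dfn.all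
      | apply Dfn.eq | apply Dfn.mem)
  have hmi : ∀ a b, pair a b ∈ ZFSet.sep (fun p => ∃ a ∈ A, p = pair a a) (ZFSet.prod A A) ↔
      a ∈ A ∧ b = a := by
    intro a b
    rw [ZFSet.mem_sep, ZFSet.pair_mem_prod]
    constructor
    · rintro ⟨-, c, hc, h1⟩
      obtain ⟨rfl, rfl⟩ := ZFSet.pair_inj.1 h1
      exact ⟨hc, rfl⟩
    · rintro ⟨ha, rfl⟩
      exact ⟨⟨ha, ha⟩, b, ha, rfl⟩
  -- the enumeration of the remainder
  have hbM : ZFSet.sep (fun p => ∃ n ∈ ZFSet.omega, p = pair n (pair A n))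
      (ZFSet.prod ZFSet.omega (ZFSet.prod {A} ZFSet.omega)) ∈ M := by
    have hpr := hM.prod_mem hom hRM
    refine hM.sep_mem (Q := fun p => ∃ n ∈ ZFSet.omega, p = pair n (pair A n)) ?_ hpr
    (repeat' first
      | assumption
      | exact DfnF.proj _
      | exact DfnF.const (by assumption)
      | exact Dfn.prop _
      | apply hB.pair'
      | apply Dfn.not | apply Dfn.and | apply Dfn.or | apply Dfn.imp | apply Dfn.iff
      | apply hB.bex | apply hB.ball | apply Dfn.ex | apply Dfn.all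
      | apply Dfn.eq | apply Dfn.mem)
  have hmb : ∀ n y, pair n y ∈ ZFSet.sep (fun p => ∃ n ∈ ZFSet.omega, p = pair n (pair A n))
      (ZFSet.prod ZFSet.omega (ZFSet.prod {A} ZFSet.omega)) ↔ n ∈ ZFSet.omega ∧ y = pair A n := by
    intro n y
    rw [ZFSet.mem_sep, ZFSet.pair_mem_prod]
    constructor
    · rintro ⟨-, c, hc, h1⟩
      obtain ⟨rfl, rfl⟩ := ZFSet.pair_inj.1 h1
      exact ⟨hc, rfl⟩
    · rintro ⟨hn, rfl⟩
      exact ⟨⟨hn, (hmP _ _).2 ⟨n, hn, rfl⟩⟩, n, hn, rfl⟩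
  refine ⟨Y, τ, A, _, ⟨hYM, hτM, hAM, hiM, htop, hcpt, hhaus, fun z hz => (hmY z).2 (Or.inl hz),
    ⟨⟨⟨⟨fun z hz => (ZFSet.mem_sep.1 hz).1, fun a ha => ⟨a, (hmi _ _).2 ⟨ha, rfl⟩, fun b hb =>
    ((hmi _ _).1 hb).2⟩⟩, fun a b c ha hb => ?_⟩, fun b hb => ⟨b, hb, (hmi _ _).2 ⟨hb, rfl⟩⟩⟩,
    fun U hU => ?_⟩, fun U hU hne => ?_⟩, _, hbM, ?_⟩
  · rw [← ((hmi _ _).1 ha).2, ← ((hmi _ _).1 hb).2]
  · have h1 : ZFSet.sep (fun y => ∃ x ∈ U, pair x y ∈ ZFSet.sep (fun p => ∃ a ∈ A, p = pair a a)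
        (ZFSet.prod A A)) A = U := by
      ext z
      rw [ZFSet.mem_sep]
      constructor
      · rintro ⟨-, x, hx, h2⟩
        rw [((hmi _ _).1 h2).2]
        exact hx
      · intro hz
        exact ⟨hU hz, z, hz, (hmi _ _).2 ⟨hU hz, rfl⟩⟩
    rw [h1, mem_subTop, mem_PM]
    constructor
    · rintro ⟨hUM, -⟩
      refine ⟨U, (mτ U).2 ⟨hUM, fun z hz => (hmY z).2 (Or.inl (hU hz)), fun j hj =>
        absurd (hU hj) (hq _)⟩, ?_⟩
      ext z
      rw [ZFSet.mem_inter]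
      exact ⟨fun h2 => ⟨h2, hU h2⟩, fun h2 => h2.1⟩
    · rintro ⟨W, hW, h2⟩
      refine ⟨?_, hU⟩
      have h5 : U = ZFSet.sep (fun z => z ∈ A) W := by
        rw [h2]
        ext z
        rw [ZFSet.mem_inter, ZFSet.mem_sep]
      rw [h5]
      exact hM.sep_mem (Q := fun z => z ∈ A) (Dfn.mem (DfnF.proj 0) (DfnF.const hAM))
        ((mτ W).1 hW).1
  · obtain ⟨y, hy⟩ := hne
    obtain ⟨u1, u2, u3⟩ := (mτ U).1 hU
    rcases (hmY y).1 (u2 hy) with h1 | ⟨j, rfl⟩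
    · exact ⟨y, hy, h1⟩
    · obtain ⟨a, a1, a2, a3⟩ := u3 j hy
      obtain ⟨n, hn⟩ := a.2.1
      obtain ⟨x, hx, hx'⟩ := (hn.infinite a.2.2).exists_notMem_finite a3
      refine ⟨at' x, ?_, hatA x⟩
      by_contra h1
      exact hx' ⟨hx, h1⟩
  · rw [hYA]
    refine ⟨⟨⟨fun p hp => (ZFSet.mem_sep.1 hp).1, fun n hn => ⟨pair A n, (hmb _ _).2 ⟨hn, rfl⟩,
      fun y hy => ((hmb _ _).1 hy).2⟩⟩, fun n m y h1 h2 => ?_⟩, fun y hy => ?_⟩
    · have h3 := ((hmb _ _).1 h1).2.symm.trans ((hmb _ _).1 h2).2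
      exact (ZFSet.pair_inj.1 h3).2
    · obtain ⟨z, hz, rfl⟩ := (hmP _ _).1 hy
      exact ⟨z, hz, (hmb _ _).2 ⟨hz, rfl⟩⟩

/-- The set of the points is infinite. -/
theorem not_fin : ¬ FinIn M (st Set.univ) := by
  have hu := univ_DZ
  unfold FinIn
  rw [← finite_iff h.zf (h.stM _ hu)]
  intro h1
  have h2 : (Set.univ : Set ℕ).Finite := by
    refine Set.Finite.subset (Set.Finite.preimage (f := at') h.inj.injOn h1) fun x _ => ?_
    exact (h.mem_st hu).2 trivial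
  exact Set.infinite_univ h2

end PZM

end Pool.Agent.Q179.RZ
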