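import Pool.Agent.Q179.RZ.Bas

/-!
# The symmetric system

The columns are the pairs `(none, j)` and `(some x, i)`. A condition gives for finitely many columns
a nonempty periodic set. The automorphisms act on the values of the columns `(none, j)`, and they
permute the columns `(some x, i)`.
-/

set_option autoImplicit false
set_option linter.unusedSectionVars false

namespace Pool.Agent.Q179.RZ

open Pool.Agent.W868 Pool.Agent.W868.PName Pool.Agent.Q211.SY Pool.Agent.Q211.FS
open Pool.Agent.Q211.PA Pool.Agent.Q211.AM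
open ZFSet (pair)

/-- The notion of forcing for one column. -/
abbrev QB : Option ℕ → Type := fun _ => BP

/-- The conditions. -/
abbrev PZ : Type := FP QB

/-- The group. -/
abbrev GZ : Type := Pool.Agent.Q211.PA.GG ℕ Gam

/-- The columns of the second kind. -/
def cs (c : ℕ × ℕ) : Option ℕ × ℕ := (some c.1, c.2)

theorem cs_injective : Function.Injective cs := by
  rintro ⟨x, i⟩ ⟨y, j⟩ h
  simp only [cs, Prod.mk.injEq, Option.some.injEq] at h
  exact Prod.ext h.1 h.2

/-- The image of a column. -/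
def cg (g : GZ) (c : Option ℕ × ℕ) : Option ℕ × ℕ :=
  match c with
  | (none, j) => (none, j)
  | (some x, i) => cs (g.1.2 (x, i))

/-- The action on a condition. -/
def sz (g : GZ) (p : PZ) : PZ :=
  ⟨fun k i => match k with
    | none => rho g.1.1 (p.1 none i)
    | some x => p.1 (some (g.1.2⁻¹ (x, i)).1) (g.1.2⁻¹ (x, i)).2, by
    refine (p.2.image (cg g)).subset ?_
    rintro ⟨_ | x, i⟩ h
    · refine ⟨(none, i), fun h1 => h ?_, rfl⟩
      change rho g.1.1 (p.1 none i) = ⊤
      have h2 : p.1 none i = ⊤ := h1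
      rw [h2, rho_top]
    · refine ⟨cs (g.1.2⁻¹ (x, i)), h, ?_⟩
      change cs (g.1.2 (g.1.2⁻¹ (x, i))) = _
      rw [perm_self_inv]
      rfl⟩

theorem sz_none (g : GZ) (p : PZ) (i : ℕ) : (sz g p).1 none i = rho g.1.1 (p.1 none i) := rfl

theorem sz_some (g : GZ) (p : PZ) (x i : ℕ) : (sz g p).1 (some x) i =
    p.1 (some (g.1.2⁻¹ (x, i)).1) (g.1.2⁻¹ (x, i)).2 := rfl

theorem sz_at (g : GZ) (p : PZ) (c : ℕ × ℕ) :
    (sz g p).1 (some (g.1.2 c).1) (g.1.2 c).2 = p.1 (some c.1) c.2 := by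
  rw [sz_some]
  have h : g.1.2⁻¹ ((g.1.2 c).1, (g.1.2 c).2) = c := by
    rw [Prod.mk.eta, perm_inv_self]
  rw [h]

theorem sz_mul (g h : GZ) (p : PZ) : sz (g * h) p = sz g (sz h p) := by
  refine FP.ext' fun k i => ?_
  cases k with
  | none => rfl
  | some x =>
    rw [sz_some, sz_some, sz_some]
    have h1 : (g * h).1.2⁻¹ (x, i) = h.1.2⁻¹ (g.1.2⁻¹ (x, i)) := rfl
    rw [h1]

theorem sz_one (p : PZ) : sz 1 p = p := by
  refine FP.ext' fun k i => ?_
  cases k with
  | none => rfl
  | some x => rfl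

theorem sz_le (g : GZ) {p q : PZ} (h : p ≤ q) : sz g p ≤ sz g q := by
  intro k i
  cases k with
  | none => exact rho_mono _ (h none i)
  | some x => exact h _ _

/-- The action as a homomorphism to the automorphisms. -/
def acZ : GZ →* (PZ ≃o PZ) where
  toFun g :=
    { toFun := sz g
      invFun := sz g⁻¹
      left_inv := fun p => by rw [← sz_mul, inv_mul_cancel, sz_one]
      right_inv := fun p => by rw [← sz_mul, mul_inv_cancel, sz_one]
      map_rel_iff' := by
        intro p q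
        constructor
        · intro h
          have h1 := sz_le g⁻¹ (show sz g p ≤ sz g q from h)
          rwa [← sz_mul, ← sz_mul, inv_mul_cancel, sz_one, sz_one] at h1
        · exact fun h => sz_le g h }
  map_one' := RelIso.ext fun p => sz_one p
  map_mul' g h := RelIso.ext fun p => sz_mul g h p

theorem acZ_app (g : GZ) (p : PZ) : acZ g p = sz g p := rfl

theorem acZ_top (g : GZ) : acZ g (⊤ : PZ) = ⊤ := by
  refine FP.ext' fun k i => ?_
  cases k with
  | none => exact rho_top _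
  | some x => rfl

open Classical in
/-- The symmetric system. -/
noncomputable def SZ : Sys PZ where
  G := GZ
  grp := inferInstance
  ac := acZ
  top g := acZ_top g
  F := {L | ∃ n e, (Hx (St n) e : Subgroup GZ) = L}
  ne := ⟨_, 0, ∅, rfl⟩
  conj := by
    rintro _ ⟨n, e, rfl⟩ (g : GZ)
    obtain ⟨_, ⟨m, rfl⟩, h1⟩ := NZ.conj (St n) ⟨n, rfl⟩ g.1.1
    refine ⟨_, ⟨m, e.image g.1.2, rfl⟩, fun k hk => ⟨h1 _ hk.1, fun c hc => ?_⟩⟩
    change g.1.2⁻¹ (k.1.2 (g.1.2 c)) = c
    rw [hk.2 _ (Finset.mem_image_of_mem _ hc), perm_inv_self]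
  dir := by
    rintro _ ⟨n, e, rfl⟩ _ ⟨m, f, rfl⟩
    exact ⟨_, ⟨max n m, e ∪ f, rfl⟩, Hx_mono (St_mono (le_max_left _ _)) Finset.subset_union_left,
      Hx_mono (St_mono (le_max_right _ _)) Finset.subset_union_right⟩

theorem SZ_ac (g : GZ) (p : PZ) : SZ.ac g p = sz g p := rfl

/-- The action on names. -/
abbrev az (g : GZ) (x : PName PZ) : PName PZ := act (acZ g) x

/-- Forced equality by all conditions. -/
def Eqz (x y : PName PZ) : Prop := ∀ p, Feq x y p

theorem Eqz.refl (x : PName PZ) : Eqz x x := fun _ => Feq.refl _ _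

theorem Eqz.symm {x y : PName PZ} (h : Eqz x y) : Eqz y x := fun p => (h p).symm

theorem Eqz.trans {x y z : PName PZ} (h : Eqz x y) (h' : Eqz y z) : Eqz x z :=
  fun p => feq_trans (h p) (h' p)

theorem Eqz.opN {x y x' y' : PName PZ} (h : Eqz x x') (h' : Eqz y y') :
    Eqz (opN x y) (opN x' y') := fun p => feq_opN (h p) (h' p)

/-- The name `x` is fixed by the permutations of the columns of each point that fix `e`. -/
def FzC (e : Finset (ℕ × ℕ)) (x : PName PZ) : Prop :=
  ∀ σ ∈ Hs ℕ e, Eqz (az (emb Gam σ) x) x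

/-- The name `x` is fixed by the automorphisms over elements of `St n` that fix `e`. -/
def FzX (n : ℕ) (e : Finset (ℕ × ℕ)) (x : PName PZ) : Prop :=
  ∀ g : GZ, g.1.1 ∈ St n → (∀ c ∈ e, g.1.2 c = c) → Eqz (az g x) x

theorem FzX.fzC {n : ℕ} {e : Finset (ℕ × ℕ)} {x : PName PZ} (h : FzX n e x) :
    FzC e x := fun σ hσ => h (emb Gam σ) (St n).one_mem (fun c hc => mem_Hs'.1 hσ c hc)

theorem sym_iffZ {x : PName PZ} : SZ.Sym x ↔ ∃ n e, FzX n e x := by
  constructor
  · rintro ⟨_, ⟨n, e, rfl⟩, h⟩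
    exact ⟨n, e, fun g hg h1 p => h g ⟨hg, h1⟩ p⟩
  · rintro ⟨n, e, h⟩
    exact ⟨_, ⟨n, e, rfl⟩, fun g hg p => h g hg.1 hg.2 p⟩

/-! ### Homogeneity -/

open Classical in
/-- The columns in `e` and the columns of the first kind in the support of `p`. -/
noncomputable def re (e : Finset (ℕ × ℕ)) (p : PZ) : Finset (Option ℕ × ℕ) :=
  e.image cs ∪ p.supp.filter fun c => c.1 = none

theorem mem_re_some {e : Finset (ℕ × ℕ)} {p : PZ} {x i : ℕ} :
    (some x, i) ∈ re e p ↔ (x, i) ∈ e := by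
  classical
  unfold re
  rw [Finset.mem_union, Finset.mem_image, Finset.mem_filter]
  constructor
  · rintro (⟨c, hc, h⟩ | ⟨-, h⟩)
    · have h1 : c = (x, i) := cs_injective h
      rwa [h1] at hc
    · exact absurd h (by simp)
  · intro h
    exact Or.inl ⟨_, h, rfl⟩

theorem mem_re_none {e : Finset (ℕ × ℕ)} {p : PZ} {j : ℕ} :
    (none, j) ∈ re e p ↔ p.1 none j ≠ ⊤ := by
  classical
  unfold re
  rw [Finset.mem_union, Finset.mem_image, Finset.mem_filter, FP.mem_supp]
  constructor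
  · rintro (⟨c, hc, h⟩ | ⟨h, -⟩)
    · exact absurd (Prod.ext_iff.1 h).1 (by simp [cs])
    · exact h
  · intro h
    exact Or.inr ⟨h, rfl⟩

/-- Homogeneity: what is forced about names with support `e` is forced by the restriction
to `e` and the columns of the first kind. -/
theorem frc_rez {n : ℕ} {R : Set ZFSet.{0} → (Fin n → ZFSet.{0}) → Prop} {h : UD R}
    {x : Fin n → PName PZ} {e : Finset (ℕ × ℕ)} (hx : ∀ i, FzC e (x i)) {p : PZ}
    (hf : SZ.Frc h x p) : SZ.Frc h x (res (re e p) p) := by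
  refine Sys.frc_dense fun q hq => ?_
  obtain ⟨σ, hσ, -, r, hr, hr'⟩ := exists_common (re e p) p q ∅ (by
    intro k i hk
    have h1 := hq k i
    rwa [res_pos hk] at h1)
  have hσ' : (fun x => σ (some x)) ∈ Hs ℕ e := fun c hc =>
    hσ (cs c) ((mem_re_some (x := c.1) (i := c.2)).2 hc)
  have h1 := (Sys.frc_act (S := SZ) (emb Gam fun x => σ (some x))).2 hf
  have h2 := (Sys.frc_congr (S := SZ) (h := h) (y := x)
    (fun i => hx i _ hσ' (SZ.ac (emb Gam fun x => σ (some x)) p))).1 h1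
  have h3 : SZ.ac (emb Gam fun x => σ (some x)) p = FP.sm σ p := by
    refine FP.ext' fun k i => ?_
    rw [FP.sm_app]
    cases k with
    | none =>
      have h4 : (SZ.ac (emb Gam fun x => σ (some x)) p).1 none i = p.1 none i := rfl
      rw [h4]
      by_cases h5 : (none, i) ∈ re e p
      · have h6 : (σ none)⁻¹ i = i := by
          rw [Equiv.Perm.inv_eq_iff_eq]
          exact (hσ _ h5).symm
        rw [h6]
      · have h6 : (none, (σ none)⁻¹ i) ∉ re e p := by
          intro h7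
          have h8 : σ none ((σ none)⁻¹ i) = (σ none)⁻¹ i := hσ _ h7
          rw [perm_self_inv] at h8
          rw [← h8] at h7
          exact h5 h7
        rw [mem_re_none, not_not] at h5 h6
        rw [h5, h6]
    | some x => rfl
  rw [h3] at h2
  exact ⟨r, hr, h2.mono hr'⟩

/-- The natural number `j` is in the generic set of the column `(none, j)`... -/
def InB (π : Pkg PZ) (c : Option ℕ × ℕ) (a : BP) : Prop := ∃ m, (π.g m).1 c.1 c.2 ≤ a

theorem InB.mono {π : Pkg PZ} {c : Option ℕ × ℕ} {a b : BP} (h : InB π c a) (hab : a ≤ b) :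
    InB π c b := by
  obtain ⟨m, hm⟩ := h
  exact ⟨m, hm.trans hab⟩

theorem InB.chain {π : Pkg PZ} {c : Option ℕ × ℕ} {a b : BP} (ha : InB π c a) (hb : InB π c b) :
    ∃ d, InB π c d ∧ d ≤ a ∧ d ≤ b := by
  obtain ⟨j, hj⟩ := ha
  obtain ⟨k, hk⟩ := hb
  exact ⟨_, ⟨max j k, le_rfl⟩, ((π.g_le_left j k) c.1 c.2).trans hj,
    ((π.g_le_right j k) c.1 c.2).trans hk⟩

theorem inB_top (π : Pkg PZ) (c : Option ℕ × ℕ) : InB π c ⊤ := ⟨0, le_top⟩

theorem exists_stage {π : Pkg PZ} (F : Finset ℕ) (C : ℕ → BP)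
    (h : ∀ j ∈ F, InB π (none, j) (C j)) : ∃ m, ∀ j ∈ F, (π.g m).1 none j ≤ C j := by
  classical
  induction F using Finset.induction_on with
  | empty => exact ⟨0, fun j hj => absurd hj (Finset.notMem_empty _)⟩
  | insert a s ha ih =>
    obtain ⟨m, hm⟩ := ih fun j hj => h j (Finset.mem_insert_of_mem hj)
    obtain ⟨k, hk⟩ := h a (Finset.mem_insert_self _ _)
    refine ⟨max m k, fun j hj => ?_⟩
    rcases Finset.mem_insert.1 hj with rfl | hj
    · exact ((π.g_le_right m k) none _).trans hk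
    · exact ((π.g_le_left m k) none j).trans (hm j hj)

/-- Transfer of a true statement along an automorphism. -/
theorem transferZ {π : Pkg PZ} (hcl : SZ.Cld π) {n : ℕ}
    {R : Set ZFSet.{0} → (Fin n → ZFSet.{0}) → Prop} (h : UD R)
    {x : Fin n → PName PZ} {e : Finset (ℕ × ℕ)} (hx : ∀ i, FzC e (x i))
    (hxN : ∀ i, x i ∈ π.N ∧ SZ.HS (x i)) (hR : R (SZ.Ms π) (π.val ∘ x)) :
    ∃ (F : Finset ℕ) (C : ℕ → BP), (∀ j ∈ F, InB π (none, j) (C j)) ∧
      ∀ C' : ℕ → BP, (∀ j ∈ F, C' j ≤ C j ∧ InB π (none, j) (C' j)) →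
      ∀ g : GZ, (∀ c ∈ e, g.1.2 c = c) → (∀ j ∈ F, rho g.1.1 (C' j) = C' j) →
      ∀ x' : Fin n → PName PZ, (∀ i, x' i ∈ π.N ∧ SZ.HS (x' i)) →
        (∀ i, Eqz (az g (x i)) (x' i)) → R (SZ.Ms π) (π.val ∘ x') := by
  classical
  obtain ⟨k, hk⟩ := (Sys.frc_iff h hcl hxN).1 hR
  have h1 := frc_rez hx hk
  have hmF : ∀ j, j ∈ (((π.g k).supp.filter fun c => c.1 = none).image Prod.snd) ↔
      (π.g k).1 none j ≠ ⊤ := by
    intro j
    rw [Finset.mem_image]
    constructor
    · rintro ⟨⟨_ | y, i⟩, hc, rfl⟩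
      · exact FP.mem_supp.1 (Finset.mem_filter.1 hc).1
      · exact absurd (Finset.mem_filter.1 hc).2 (by simp)
    · intro hj
      exact ⟨(none, j), Finset.mem_filter.2 ⟨FP.mem_supp.2 hj, rfl⟩, rfl⟩
  refine ⟨((π.g k).supp.filter fun c => c.1 = none).image Prod.snd, fun j => (π.g k).1 none j,
    fun j _ => ⟨k, le_rfl⟩, fun C' hC' g hg hgC x' hxN' hxx' => ?_⟩
  -- the smaller condition
  obtain ⟨p, hp⟩ : ∃ p : PZ, (∀ j, p.1 none j = if (π.g k).1 none j = ⊤ then ⊤ else C' j) ∧
      ∀ x i, p.1 (some x) i = if (x, i) ∈ e then (π.g k).1 (some x) i else ⊤ := by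
    refine ⟨⟨fun k' i => match k' with
      | none => if (π.g k).1 none i = ⊤ then ⊤ else C' i
      | some x => if (x, i) ∈ e then (π.g k).1 (some x) i else ⊤, ?_⟩, fun j => rfl,
      fun x i => rfl⟩
    refine (π.g k).2.subset ?_
    rintro ⟨_ | x, i⟩ h2 h3
    · exact h2 (if_pos h3)
    · refine h2 ?_
      change (if (x, i) ∈ e then (π.g k).1 (some x) i else ⊤) = (⊤ : BP)
      have h4 : (π.g k).1 (some x) i = ⊤ := h3
      rw [h4, ite_self]
  have hp1 : p ≤ res (re e (π.g k)) (π.g k) := by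
    intro k' i
    cases k' with
    | none =>
      rw [hp.1]
      split_ifs with h2
      · have h3 : (none, i) ∉ re e (π.g k) := by
          rw [mem_re_none, not_not]
          exact h2
        rw [res_neg h3]
      · have h3 : (none, i) ∈ re e (π.g k) := mem_re_none.2 h2
        rw [res_pos h3]
        exact (hC' i ((hmF i).2 h2)).1
    | some x =>
      rw [hp.2]
      split_ifs with h2
      · rw [res_pos (mem_re_some.2 h2)]
      · rw [res_neg (fun h3 => h2 (mem_re_some.1 h3))]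
  obtain ⟨m, hm⟩ := exists_stage (π := π) _ C' fun j hj => (hC' j hj).2
  have hp2 : π.g (max k m) ≤ p := by
    intro k' i
    cases k' with
    | none =>
      rw [hp.1]
      split_ifs with h2
      · exact le_top
      · exact ((π.g_le_right k m) none i).trans (hm i ((hmF i).2 h2))
    | some x =>
      rw [hp.2]
      split_ifs with h2
      · exact (π.g_le_left k m) (some x) i
      · exact le_top
  have hp3 : sz g p = p := by
    refine FP.ext' fun k' i => ?_
    cases k' with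
    | none =>
      rw [sz_none, hp.1]
      split_ifs with h2
      · exact rho_top _
      · exact hgC i ((hmF i).2 h2)
    | some x =>
      rw [sz_some, hp.2, hp.2]
      by_cases h2 : (x, i) ∈ e
      · have h3 : g.1.2⁻¹ (x, i) = (x, i) := by
          rw [Equiv.Perm.inv_eq_iff_eq]
          exact (hg _ h2).symm
        rw [h3]
      · have h3 : ((g.1.2⁻¹ (x, i)).1, (g.1.2⁻¹ (x, i)).2) ∉ e := by
          rw [Prod.mk.eta]
          intro h4
          have h5 := hg _ h4
          rw [perm_self_inv] at h5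
          rw [← h5] at h4
          exact h2 h4
        rw [if_neg h2, if_neg h3]
  have h2 := (Sys.frc_act (S := SZ) g).2 (h1.mono hp1)
  have h3 := (Sys.frc_congr (S := SZ) (h := h) (y := x')
    (fun i => hxx' i (SZ.ac g p))).1 h2
  rw [SZ_ac, hp3] at h3
  exact (Sys.frc_iff h hcl hxN').2 ⟨_, h3.mono hp2⟩

end Pool.Agent.Q179.RZ
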