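import Pool.Agent.Q179.RZ.Cor
import Pool.Agent.Q179.RZ.Def

/-!
# Compactifications of discrete spaces in transitive models
-/

set_option autoImplicit false
set_option linter.unusedSectionVars false
set_option linter.unusedVariables false
set_option linter.unreachableTactic false
set_option linter.unusedTactic false

namespace Pool.Agent.Q179.RZ

open Pool.Agent.W868 Pool.Agent.W868.PName Pool.Agent.Q211.SY Pool.Agent.Q211.FS
open Pool.Agent.Q211.PA Pool.Agent.Q211.AM Pool.Agent.Q211.TP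
open ZFSet (pair)

namespace HCpt

variable {M : Set ZFSet.{0}} {A Y τ B i : ZFSet.{0}} (hc : HCpt M A (PM M A) Y τ B i) (hM : IsZF M)

include hc hM

theorem mem_M {V : ZFSet.{0}} (hV : V ∈ τ) : V ∈ M := hM.trans _ hc.τM _ hV

theorem pt_M {y : ZFSet.{0}} (hy : y ∈ Y) : y ∈ M := hM.trans _ hc.YM _ hy

theorem union2 {V W : ZFSet.{0}} (hV : V ∈ τ) (hW : W ∈ τ) : V ∪ W ∈ τ := by
  have h1 := hc.top.union {V, W} (hM.pairing _ (hc.mem_M hM hV) _ (hc.mem_M hM hW)) (by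
    intro z hz
    rcases ZFSet.mem_pair.1 hz with rfl | rfl
    · exact hV
    · exact hW)
  rwa [ZFSet.sUnion_pair] at h1

theorem empty_open : (∅ : ZFSet.{0}) ∈ τ := by
  have h1 := hc.top.union ∅ hM.empty_mem (fun z hz => absurd hz (ZFSet.notMem_empty _))
  rwa [ZFSet.sUnion_empty] at h1

/-- Points are closed. -/
theorem t1 {y : ZFSet.{0}} (hy : y ∈ Y) : ∃ V ∈ τ, ∀ z, z ∈ V ↔ z ∈ Y ∧ z ≠ y := by
  have hyM := hc.pt_M hM hy
  have hC : ZFSet.sep (fun V => y ∉ V) τ ∈ M :=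
    hM.sep_mem (Q := fun V => y ∉ V) (Dfn.not (Dfn.mem (DfnF.const hyM) (DfnF.proj 0))) hc.τM
  refine ⟨_, hc.top.union _ hC fun z hz => (ZFSet.mem_sep.1 hz).1, fun z => ?_⟩
  rw [ZFSet.mem_sUnion]
  constructor
  · rintro ⟨V, hV, hz⟩
    obtain ⟨h1, h2⟩ := ZFSet.mem_sep.1 hV
    refine ⟨hc.top.sub V h1 hz, ?_⟩
    rintro rfl
    exact h2 hz
  · rintro ⟨hz, hne⟩
    obtain ⟨V, hV, W, hW, h1, h2, h3⟩ := hc.haus z hz y hy hne
    exact ⟨V, ZFSet.mem_sep.2 ⟨hV, fun h4 => h3 y h4 h2⟩, h1⟩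

theorem remove (F : Finset ZFSet.{0}) {V : ZFSet.{0}} (hV : V ∈ τ) :
    ∃ V' ∈ τ, ∀ z, z ∈ V' ↔ z ∈ V ∧ z ∉ F := by
  classical
  induction F using Finset.induction_on with
  | empty => exact ⟨V, hV, fun z => by simp⟩
  | insert a s ha ih =>
    obtain ⟨V', hV', h1⟩ := ih
    by_cases haY : a ∈ Y
    · obtain ⟨T, hT, h2⟩ := hc.t1 hM haY
      refine ⟨V' ∩ T, hc.top.inter _ hV' _ hT, fun z => ?_⟩
      rw [ZFSet.mem_inter, h1, h2, Finset.mem_insert, not_or]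
      constructor
      · rintro ⟨⟨h3, h4⟩, -, h5⟩
        exact ⟨h3, h5, h4⟩
      · rintro ⟨h3, h4, h5⟩
        exact ⟨⟨h3, h5⟩, hc.top.sub V hV h3, h4⟩
    · refine ⟨V', hV', fun z => ?_⟩
      rw [h1, Finset.mem_insert, not_or]
      constructor
      · rintro ⟨h3, h4⟩
        refine ⟨h3, ?_, h4⟩
        rintro rfl
        exact haY (hc.top.sub V hV h3)
      · rintro ⟨h3, h4, h5⟩
        exact ⟨h3, h5⟩

/-- The points of the discrete space are isolated. -/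
theorem isolated {b : ZFSet.{0}} (hb : b ∈ B) : ({b} : ZFSet.{0}) ∈ τ := by
  obtain ⟨a, ha, hab⟩ := hc.emb.1.2 b hb
  have haM : a ∈ M := by
    have h1 : pair a b ∈ M := hM.trans _ hc.iM _ hab
    have h2 : ({a} : ZFSet.{0}) ∈ pair a b := by
      rw [pair, ZFSet.mem_pair]
      exact Or.inl rfl
    exact hM.trans _ (hM.trans _ h1 _ h2) _ (ZFSet.mem_singleton.2 rfl)
  have h1 : ({a} : ZFSet.{0}) ∈ PM M A := mem_PM.2 ⟨hM.single_mem haM, fun z hz => by
    rw [ZFSet.mem_singleton.1 hz]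
    exact ha⟩
  have h2 := (hc.emb.2 {a} (mem_PM.1 h1).2).1 h1
  have h3 : ZFSet.sep (fun y => ∃ x ∈ ({a} : ZFSet.{0}), pair x y ∈ i) B = {b} := by
    ext z
    rw [ZFSet.mem_sep, ZFSet.mem_singleton]
    constructor
    · rintro ⟨hz, x, hx, h4⟩
      rw [ZFSet.mem_singleton.1 hx] at h4
      exact (hc.emb.1.1.1.2 a ha).unique h4 hab
    · rintro rfl
      exact ⟨hb, a, ZFSet.mem_singleton.2 rfl, hab⟩
  rw [h3, mem_subTop] at h2
  obtain ⟨O, hO, h4⟩ := h2
  have hbO : b ∈ O := by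
    have h5 : b ∈ O ∩ B := h4 ▸ ZFSet.mem_singleton.2 rfl
    exact (ZFSet.mem_inter.1 h5).1
  obtain ⟨T, hT, h5⟩ := hc.t1 hM (hc.sub hb)
  have h6 : ∀ z ∈ O, z = b := by
    intro z hz
    by_contra hne
    obtain ⟨y, hy, hyB⟩ := hc.dense _ (hc.top.inter _ hO _ hT)
      ⟨z, ZFSet.mem_inter.2 ⟨hz, (h5 z).2 ⟨hc.top.sub _ hO hz, hne⟩⟩⟩
    obtain ⟨hy1, hy2⟩ := ZFSet.mem_inter.1 hy
    have h7 : y ∈ O ∩ B := ZFSet.mem_inter.2 ⟨hy1, hyB⟩
    rw [← h4] at h7
    exact ((h5 y).1 hy2).2 (ZFSet.mem_singleton.1 h7)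
  have h7 : O = {b} := by
    ext z
    rw [ZFSet.mem_singleton]
    constructor
    · exact h6 z
    · rintro rfl
      exact hbO
  rw [← h7]
  exact hO

/-- Clopen sets of isolated points are finite. -/
theorem clopen_finite {V V' : ZFSet.{0}} (hV : V ∈ τ) (hV' : V' ∈ τ)
    (h1 : ∀ z ∈ Y, (z ∈ V' ↔ z ∉ V)) (h2 : ∀ z ∈ V, z ∈ B) : {z | z ∈ V}.Finite := by
  classical
  have hVM := hc.mem_M hM hV
  have hV'M := hc.mem_M hM hV'
  have hτM := hc.τM
  have hB := hM.base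
  have hC : ZFSet.sep (fun O => O = V' ∨ ∃ b ∈ V, b ∈ O ∧ ∀ z ∈ O, z = b) τ ∈ M := by
    refine hM.sep_mem (Q := fun O => O = V' ∨ ∃ b ∈ V, b ∈ O ∧ ∀ z ∈ O, z = b) ?_ hτM
    (repeat' first
      | assumption
      | exact DfnF.proj _
      | exact DfnF.const (by assumption)
      | exact DfnF.const' (by first | assumption | trivial) (by first | assumption | trivial)
      | exact Dfn.prop _
      | apply hB.isFunc' | apply hB.isInj' | apply hB.isBij' | apply hB.isOrdinal'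
      | apply hB.subset' | apply hB.pair' | apply hB.insert'
      | apply Dfn.not | apply Dfn.and | apply Dfn.or | apply Dfn.imp | apply Dfn.iff
      | apply hB.bex | apply hB.ball | apply Dfn.ex | apply Dfn.all
      | apply Dfn.eq | apply Dfn.mem)
  obtain ⟨F, hF, h3⟩ := hc.cpt _ hC (fun z hz => (ZFSet.mem_sep.1 hz).1) fun z hz => by
    by_cases h4 : z ∈ V
    · exact ⟨{z}, ZFSet.mem_sep.2 ⟨hc.isolated hM (h2 z h4), Or.inr ⟨z, h4,
        ZFSet.mem_singleton.2 rfl, fun w hw => ZFSet.mem_singleton.1 hw⟩⟩,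
        ZFSet.mem_singleton.2 rfl⟩
    · exact ⟨V', ZFSet.mem_sep.2 ⟨hV', Or.inl rfl⟩, (h1 z hz).2 h4⟩
  refine Set.Finite.subset (Set.Finite.preimage (f := fun z : ZFSet.{0} => ({z} : ZFSet.{0}))
    (fun a _ b _ hab => ?_) F.finite_toSet) fun z hz => ?_
  · have h4 : a ∈ ({b} : ZFSet.{0}) := by
      have hab' : ({a} : ZFSet.{0}) = {b} := hab
      rw [← hab']
      exact ZFSet.mem_singleton.2 rfl
    exact ZFSet.mem_singleton.1 h4
  · obtain ⟨U, hU, hzU⟩ := h3 z (hc.top.sub _ hV hz)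
    rcases (ZFSet.mem_sep.1 (hF U hU)).2 with rfl | ⟨b, hb, hbU, h4⟩
    · exact absurd hz ((h1 z (hc.top.sub _ hV hz)).1 hzU)
    · have h5 : U = {z} := by
        ext w
        rw [ZFSet.mem_singleton]
        constructor
        · intro hw
          rw [h4 w hw, h4 z hzU]
        · rintro rfl
          exact hzU
      change ({z} : ZFSet.{0}) ∈ F
      rw [← h5]
      exact hU

/-- Finite open sets consist of isolated points. -/
theorem finite_open {V : ZFSet.{0}} (hV : V ∈ τ) (h1 : {z | z ∈ V}.Finite) : ∀ z ∈ V, z ∈ B := by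
  classical
  intro z hz
  obtain ⟨V', hV', h2⟩ := hc.remove hM (h1.toFinset.erase z) hV
  obtain ⟨y, hy, hyB⟩ := hc.dense V' hV' ⟨z, (h2 z).2 ⟨hz, by simp⟩⟩
  obtain ⟨h3, h4⟩ := (h2 y).1 hy
  have h5 : y = z := by
    by_contra h6
    exact h4 (Finset.mem_erase.2 ⟨h6, h1.mem_toFinset.2 h3⟩)
  rwa [h5] at hyB

/-- Isolated points of the remainder have clopen neighbourhoods without other points of the
remainder. -/
theorem exists_clopen {y W : ZFSet.{0}} (hyW : y ∈ W) (hW : W ∈ τ) (h1 : ∀ z ∈ W, z ∉ B → z = y) :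
    ∃ V ∈ τ, ∃ V' ∈ τ, (∀ z ∈ Y, (z ∈ V' ↔ z ∉ V)) ∧ y ∈ V ∧ V ⊆ W := by
  classical
  have hWM := hc.mem_M hM hW
  have hτM := hc.τM
  have hyY := hc.top.sub _ hW hyW
  have hyM := hc.pt_M hM hyY
  have hB := hM.base
  have hC : ZFSet.sep (fun O => O = W ∨ ∃ U ∈ τ, y ∈ U ∧ ∀ z ∈ U, z ∉ O) τ ∈ M := by
    refine hM.sep_mem (Q := fun O => O = W ∨ ∃ U ∈ τ, y ∈ U ∧ ∀ z ∈ U, z ∉ O) ?_ hτM
    (repeat' first
      | assumption
      | exact DfnF.proj _
      | exact DfnF.const (by assumption)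
      | exact DfnF.const' (by first | assumption | trivial) (by first | assumption | trivial)
      | exact Dfn.prop _
      | apply hB.isFunc' | apply hB.isInj' | apply hB.isBij' | apply hB.isOrdinal'
      | apply hB.subset' | apply hB.pair' | apply hB.insert'
      | apply Dfn.not | apply Dfn.and | apply Dfn.or | apply Dfn.imp | apply Dfn.iff
      | apply hB.bex | apply hB.ball | apply Dfn.ex | apply Dfn.all
      | apply Dfn.eq | apply Dfn.mem)
  obtain ⟨F, hF, h3⟩ := hc.cpt _ hC (fun z hz => (ZFSet.mem_sep.1 hz).1) fun z hz => by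
    by_cases h4 : z ∈ W
    · exact ⟨W, ZFSet.mem_sep.2 ⟨hW, Or.inl rfl⟩, h4⟩
    · obtain ⟨O, hO, U, hU, h5, h6, h7⟩ := hc.haus z hz y hyY (by
        rintro rfl
        exact h4 hyW)
      exact ⟨O, ZFSet.mem_sep.2 ⟨hO, Or.inr ⟨U, hU, h6, fun w hw h8 => h7 w h8 hw⟩⟩, h5⟩
  -- the union and the intersection
  obtain ⟨G, hG, U, hU, hyU, hGU, hGF⟩ : ∃ G ∈ τ, ∃ U ∈ τ, y ∈ U ∧ (∀ z ∈ U, z ∉ G) ∧
      ∀ O ∈ F, O ≠ W → O ⊆ G := by
    clear h3
    induction F using Finset.induction_on with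
    | empty =>
      exact ⟨∅, hc.empty_open hM, Y, hc.top.univ, hyY, fun z _ => ZFSet.notMem_empty _,
        fun O hO => absurd hO (Finset.notMem_empty _)⟩
    | insert O s hO ih =>
      obtain ⟨G, hG, U, hU, hyU, hGU, hGF⟩ := ih fun O hO => hF O (Finset.mem_insert_of_mem hO)
      obtain ⟨h4, h5⟩ := ZFSet.mem_sep.1 (hF O (Finset.mem_insert_self _ _))
      by_cases hOW : O = W
      · refine ⟨G, hG, U, hU, hyU, hGU, fun O' hO' hne => ?_⟩
        rcases Finset.mem_insert.1 hO' with rfl | hO'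
        · exact absurd hOW hne
        · exact hGF O' hO' hne
      · obtain ⟨U', hU', hyU', h6⟩ := h5.resolve_left hOW
        refine ⟨G ∪ O, hc.union2 hM hG h4, U ∩ U', hc.top.inter _ hU _ hU',
          ZFSet.mem_inter.2 ⟨hyU, hyU'⟩, fun z hz h7 => ?_, fun O' hO' hne => ?_⟩
        · obtain ⟨h8, h9⟩ := ZFSet.mem_inter.1 hz
          rcases ZFSet.mem_union.1 h7 with h7 | h7
          · exact hGU z h8 h7
          · exact h6 z h9 h7
        · rcases Finset.mem_insert.1 hO' with rfl | hO'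
          · exact fun z hz => ZFSet.mem_union.2 (Or.inr hz)
          · exact fun z hz => ZFSet.mem_union.2 (Or.inl (hGF O' hO' hne hz))
  have hGM := hc.mem_M hM hG
  -- the complement of the union
  have hC2 : ZFSet.sep (fun O => ∀ z ∈ O, z ∉ G) τ ∈ M := by
    refine hM.sep_mem (Q := fun O => ∀ z ∈ O, z ∉ G) ?_ hτM
    (repeat' first
      | assumption
      | exact DfnF.proj _
      | exact DfnF.const (by assumption)
      | exact Dfn.prop _
      | apply Dfn.not | apply Dfn.and | apply Dfn.or | apply Dfn.imp | apply Dfn.iff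
      | apply hB.bex | apply hB.ball | apply Dfn.ex | apply Dfn.all
      | apply Dfn.eq | apply Dfn.mem)
  have hGW : ∀ z ∈ Y, z ∉ G → z ∈ W := by
    intro z hz hzG
    by_contra hzW
    obtain ⟨O, hO, hzO⟩ := h3 z hz
    refine hzG (hGF O hO ?_ hzO)
    rintro rfl
    exact hzW hzO
  have hmV : ∀ z, z ∈ ZFSet.sUnion (ZFSet.sep (fun O => ∀ z ∈ O, z ∉ G) τ) ↔ z ∈ Y ∧ z ∉ G := by
    intro z
    rw [ZFSet.mem_sUnion]
    constructor
    · rintro ⟨O, hO, hz⟩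
      obtain ⟨h4, h5⟩ := ZFSet.mem_sep.1 hO
      exact ⟨hc.top.sub _ h4 hz, h5 z hz⟩
    · rintro ⟨hz, hzG⟩
      by_cases hzB : z ∈ B
      · refine ⟨{z}, ZFSet.mem_sep.2 ⟨hc.isolated hM hzB, fun w hw => ?_⟩,
          ZFSet.mem_singleton.2 rfl⟩
        rw [ZFSet.mem_singleton.1 hw]
        exact hzG
      · have h4 := h1 z (hGW z hz hzG) hzB
        rw [h4]
        exact ⟨U, ZFSet.mem_sep.2 ⟨hU, hGU⟩, hyU⟩
  refine ⟨_, hc.top.union _ hC2 fun z hz => (ZFSet.mem_sep.1 hz).1, G, hG, fun z hz => ?_,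
    (hmV y).2 ⟨hyY, hGU y hyU⟩, fun z hz => ?_⟩
  · rw [hmV]
    constructor
    · exact fun h4 h5 => h5.2 h4
    · intro h4
      by_contra h5
      exact h4 ⟨hz, h5⟩
  · obtain ⟨h4, h5⟩ := (hmV z).1 hz
    exact hGW z h4 h5

end HCpt

end Pool.Agent.Q179.RZ
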